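import Mathlib

/-!
# Constant depth circuits with counting gates modulo `p`
-/

set_option autoImplicit false

namespace Pool.Agent.RS

open Finset

/-- Kinds of gates: NOR (which is NOT for one input), AND, OR, and counting gates, which apply an
arbitrary Boolean function to the number of true inputs modulo `p`. -/
inductive Kind : Type
  | nor : Kind
  | and : Kind
  | or : Kind
  | mod (A : ℕ → Bool) : Kind

/-- A circuit with `s` gates of unbounded fan-in over the variables in `V`. Variable `v` is an
input of gate `g` with multiplicity `vw g v`, gate `h` with multiplicity `gw g h`. The gates that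
feed a gate have smaller level. -/
structure Circuit (V : Type) (s : ℕ) where
  kind : Fin s → Kind
  vw : Fin s → V → ℕ
  gw : Fin s → Fin s → ℕ
  level : Fin s → ℕ
  level_lt : ∀ g h, gw g h ≠ 0 → level h < level g
  out : Fin s

namespace Circuit

variable {V : Type} [Fintype V] {s : ℕ}

/-- The number of true inputs of gate `g`, with multiplicity. -/
def trueInputs (C : Circuit V s) (x : V → Bool) (val : Fin s → Bool) (g : Fin s) : ℕ :=
  (∑ v, if x v = true then C.vw g v else 0) + ∑ h, if val h = true then C.gw g h else 0

/-- The number of inputs of gate `g`, with multiplicity. -/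
def inputs (C : Circuit V s) (g : Fin s) : ℕ := (∑ v, C.vw g v) + ∑ h, C.gw g h

/-- The condition for the output of gate `g` to be true. -/
def Fires (p : ℕ) (C : Circuit V s) (x : V → Bool) (val : Fin s → Bool) (g : Fin s) : Prop :=
  match C.kind g with
  | Kind.nor => C.trueInputs x val g = 0
  | Kind.and => C.trueInputs x val g = C.inputs g
  | Kind.or => 0 < C.trueInputs x val g
  | Kind.mod A => A (C.trueInputs x val g % p) = true

/-- `val` is the family of values of the gates on input `x`. -/
def IsRun (p : ℕ) (C : Circuit V s) (x : V → Bool) (val : Fin s → Bool) : Prop :=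
  ∀ g, val g = true ↔ C.Fires p x val g

/-- The circuit accepts `x`. -/
def Accepts (p : ℕ) (C : Circuit V s) (x : V → Bool) : Prop :=
  ∃ val : Fin s → Bool, C.IsRun p x val ∧ val C.out = true

lemma trueInputs_congr (C : Circuit V s) (x : V → Bool) {val val' : Fin s → Bool} (g : Fin s)
    (h : ∀ h, C.level h < C.level g → val h = val' h) :
    C.trueInputs x val g = C.trueInputs x val' g := by
  unfold trueInputs
  congr 1
  refine Finset.sum_congr rfl fun k _ => ?_
  by_cases hk : C.gw g k = 0
  · simp [hk]
  · rw [h k (C.level_lt g k hk)]

lemma fires_congr (p : ℕ) (C : Circuit V s) (x : V → Bool) {val val' : Fin s → Bool} (g : Fin s)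
    (h : ∀ h, C.level h < C.level g → val h = val' h) :
    C.Fires p x val g ↔ C.Fires p x val' g := by
  unfold Fires
  rw [C.trueInputs_congr x g h]

/-- Every input has a run. -/
lemma exists_run (p : ℕ) (C : Circuit V s) (x : V → Bool) : ∃ val, C.IsRun p x val := by
  classical
  have key : ∀ k : ℕ, ∃ val : Fin s → Bool, ∀ g, C.level g < k →
      (val g = true ↔ C.Fires p x val g) := by
    intro k
    induction k with
    | zero => exact ⟨fun _ => false, fun g hg => absurd hg (Nat.not_lt_zero _)⟩
    | succ k ih =>
      obtain ⟨val, hval⟩ := ih
      refine ⟨fun g => if C.level g < k then val g else decide (C.Fires p x val g), ?_⟩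
      intro g hg
      have hc : C.Fires p x (fun g => if C.level g < k then val g
          else decide (C.Fires p x val g)) g ↔ C.Fires p x val g := by
        refine C.fires_congr p x g fun h hh => ?_
        rw [if_pos (by omega)]
      rw [hc]
      by_cases h : C.level g < k
      · simp only [if_pos h]
        exact hval g h
      · simp only [if_neg h, decide_eq_true_eq]
  obtain ⟨val, hval⟩ := key (∑ g, C.level g + 1)
  refine ⟨val, fun g => hval g ?_⟩
  have : C.level g ≤ ∑ g, C.level g := Finset.single_le_sum (f := C.level)
    (fun i _ => Nat.zero_le _) (mem_univ g)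
  omega

/-- The run is unique. -/
lemma run_unique {p : ℕ} {C : Circuit V s} {x : V → Bool} {val val' : Fin s → Bool}
    (h : C.IsRun p x val) (h' : C.IsRun p x val') : val = val' := by
  have key : ∀ k : ℕ, ∀ g, C.level g < k → val g = val' g := by
    intro k
    induction k with
    | zero => exact fun g hg => absurd hg (Nat.not_lt_zero _)
    | succ k ih =>
      intro g hg
      have := C.fires_congr p x g (val := val) (val' := val') fun h hh => ih h (by omega)
      rw [← h g, ← h' g] at this
      exact Bool.eq_iff_iff.mpr this
  funext g
  exact key (C.level g + 1) g (by omega)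

lemma accepts_iff {p : ℕ} {C : Circuit V s} {x : V → Bool} {val : Fin s → Bool}
    (h : C.IsRun p x val) : C.Accepts p x ↔ val C.out = true := by
  constructor
  · rintro ⟨val', h1, h2⟩
    rw [run_unique h h1]
    exact h2
  · exact fun h1 => ⟨val, h, h1⟩

end Circuit

end Pool.Agent.RS
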