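import Mathlib

/-!
# Subsets with equal sum and different size
-/

set_option autoImplicit false

namespace Pool.Agent.RS

open Finset

variable {ι G : Type*} [DecidableEq ι] [AddCommGroup G] [Fintype G] [DecidableEq G]

/-- The primitive root. -/
noncomputable def om (m : ℕ) : ℂ := Complex.exp (Real.pi * Complex.I / m)

lemma om_pow (m : ℕ) (hm : 0 < m) : om m ^ m = -1 := by
  unfold om
  rw [← Complex.exp_nat_mul]
  have : (m : ℂ) * (Real.pi * Complex.I / m) = Real.pi * Complex.I := by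
    have : (m : ℂ) ≠ 0 := by exact_mod_cast hm.ne'
    field_simp
  rw [this, Complex.exp_pi_mul_I]

lemma norm_om (m : ℕ) : ‖om m‖ = 1 := by
  unfold om
  have : (Real.pi * Complex.I / m : ℂ) = ((Real.pi / m : ℝ) : ℂ) * Complex.I := by
    push_cast
    ring
  rw [this, Complex.norm_exp_ofReal_mul_I]

/-- Twisted translation. -/
noncomputable def tw (m : ℕ) (g : G) (f : EuclideanSpace ℂ G) : EuclideanSpace ℂ G :=
  WithLp.toLp 2 fun γ => om m * f (γ - g)

omit [DecidableEq G] in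
lemma norm_tw (m : ℕ) (g : G) (f : EuclideanSpace ℂ G) : ‖tw m g f‖ = ‖f‖ := by
  rw [EuclideanSpace.norm_eq, EuclideanSpace.norm_eq]
  congr 1
  refine Fintype.sum_equiv (Equiv.subRight g) _ _ fun γ => ?_
  simp [tw, norm_om]

omit [DecidableEq G] [Fintype G] in
lemma tw_sub (m : ℕ) (g : G) (f f' : EuclideanSpace ℂ G) :
    tw m g f - tw m g f' = tw m g (f - f') := by
  ext γ
  simp [tw, mul_sub]

omit [DecidableEq G] [Fintype G] in
lemma iterate_tw (m : ℕ) (g : G) (f : EuclideanSpace ℂ G) (k : ℕ) (γ : G) :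
    ((tw m g)^[k] f) γ = om m ^ k * f (γ - k • g) := by
  induction k generalizing γ with
  | zero => simp
  | succ k ih =>
    rw [Function.iterate_succ_apply']
    have : (tw m g ((tw m g)^[k] f)) γ = om m * ((tw m g)^[k] f) (γ - g) := rfl
    rw [this, ih, pow_succ, succ_nsmul]
    have h : γ - g - k • g = γ - (k • g + g) := by abel
    rw [h]
    ring

omit [DecidableEq G] in
/-- The key contraction. -/
lemma norm_add_tw (m : ℕ) (hm : 0 < m) (g : G) (hg : m • g = 0) (f : EuclideanSpace ℂ G) :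
    ‖f + tw m g f‖ ^ 2 ≤ 4 * (1 - 1 / (m : ℝ) ^ 2) * ‖f‖ ^ 2 := by
  have hm' : (0 : ℝ) < m := by exact_mod_cast hm
  have h1 : (tw m g)^[m] f = -f := by
    ext γ
    rw [iterate_tw, om_pow m hm, hg]
    simp
  have h2 : ∀ k : ℕ, dist ((tw m g)^[k] f) ((tw m g)^[k + 1] f) = ‖f - tw m g f‖ := by
    intro k
    induction k with
    | zero => simp [dist_eq_norm]
    | succ k ih =>
      rw [Function.iterate_succ_apply', Function.iterate_succ_apply' (tw m g) (k + 1), dist_eq_norm,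
        tw_sub, norm_tw, ← dist_eq_norm]
      exact ih
  have h3 : ‖f - (tw m g)^[m] f‖ ≤ m * ‖f - tw m g f‖ := by
    have := dist_le_range_sum_dist (fun k => (tw m g)^[k] f) m
    simp only [h2] at this
    rw [Finset.sum_const, Finset.card_range, nsmul_eq_mul, dist_eq_norm] at this
    exact this
  rw [h1, sub_neg_eq_add, ← two_smul ℝ f, norm_smul] at h3
  have h4 : ‖f‖ ≤ (m / 2) * ‖f - tw m g f‖ := by
    rw [Real.norm_of_nonneg (by norm_num : (0:ℝ) ≤ 2)] at h3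
    linarith
  have h5 := parallelogram_law_with_norm ℂ f (tw m g f)
  rw [norm_tw] at h5
  have h6 : 4 / (m : ℝ) ^ 2 * ‖f‖ ^ 2 ≤ ‖f - tw m g f‖ ^ 2 := by
    have h7 : ‖f‖ ^ 2 ≤ ((m / 2) * ‖f - tw m g f‖) ^ 2 :=
      pow_le_pow_left₀ (norm_nonneg _) h4 2
    rw [div_mul_eq_mul_div, div_le_iff₀ (by positivity)]
    nlinarith
  have h8 : 4 * (1 - 1 / (m : ℝ) ^ 2) * ‖f‖ ^ 2 = 4 * ‖f‖ ^ 2 - 4 / (m : ℝ) ^ 2 * ‖f‖ ^ 2 := by
    ring
  rw [h8]
  nlinarith

/-- The generating function of the sizes of subsets of `s` with given sum. -/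
noncomputable def gen (m : ℕ) (g : ι → G) (s : Finset ι) : EuclideanSpace ℂ G :=
  WithLp.toLp 2 fun γ => ∑ u ∈ s.powerset.filter (fun u => ∑ i ∈ u, g i = γ), om m ^ u.card

omit [Fintype G] in
lemma gen_insert (m : ℕ) (g : ι → G) (s : Finset ι) (i : ι) (hi : i ∉ s) :
    gen m g (insert i s) = gen m g s + tw m (g i) (gen m g s) := by
  ext γ
  change (∑ u ∈ (insert i s).powerset.filter (fun u => ∑ i ∈ u, g i = γ), om m ^ u.card) =
    (∑ u ∈ s.powerset.filter (fun u => ∑ i ∈ u, g i = γ), om m ^ u.card) +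
    om m * (∑ u ∈ s.powerset.filter (fun u => ∑ i ∈ u, g i = γ - g i), om m ^ u.card)
  rw [Finset.sum_filter, Finset.sum_powerset_insert hi, Finset.sum_filter, Finset.sum_filter,
    Finset.mul_sum]
  congr 1
  refine Finset.sum_congr rfl fun u hu => ?_
  have hiu : i ∉ u := fun h => hi (mem_powerset.mp hu h)
  rw [Finset.sum_insert hiu, card_insert_of_notMem hiu]
  by_cases h : ∑ j ∈ u, g j = γ - g i
  · rw [if_pos h, if_pos (by rw [h]; abel), pow_succ, mul_comm]
  · rw [if_neg h, if_neg, mul_zero]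
    intro h'
    exact h (by rw [← h']; abel)

lemma norm_gen_sq (m : ℕ) (hm : 0 < m) (g : ι → G) (hg : ∀ i, m • g i = 0) (s : Finset ι) :
    ‖gen m g s‖ ^ 2 ≤ (4 * (1 - 1 / (m : ℝ) ^ 2)) ^ s.card := by
  induction s using Finset.induction_on with
  | empty =>
    rw [EuclideanSpace.norm_sq_eq]
    have : ∀ γ : G, ‖(gen m g (∅ : Finset ι)) γ‖ ^ 2 = if γ = 0 then 1 else 0 := by
      intro γ
      change ‖∑ u ∈ (∅ : Finset ι).powerset.filter (fun u => ∑ i ∈ u, g i = γ), om m ^ u.card‖ ^ 2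
        = _
      rw [Finset.powerset_empty, Finset.sum_filter, Finset.sum_singleton]
      by_cases h : γ = 0
      · simp [h]
      · simp [h, Ne.symm h]
    simp [this]
  | insert i s hi ih =>
    have hm' : (1 : ℝ) ≤ m := by exact_mod_cast hm
    have h0 : (0 : ℝ) ≤ 4 * (1 - 1 / (m : ℝ) ^ 2) := by
      have : 1 / (m : ℝ) ^ 2 ≤ 1 := by
        rw [div_le_one (by positivity)]
        exact one_le_pow₀ hm'
      linarith
    rw [gen_insert m g s i hi, card_insert_of_notMem hi]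
    calc ‖gen m g s + tw m (g i) (gen m g s)‖ ^ 2
        ≤ (4 * (1 - 1 / (m : ℝ) ^ 2)) * ‖gen m g s‖ ^ 2 := norm_add_tw m hm (g i) (hg i) _
      _ ≤ (4 * (1 - 1 / (m : ℝ) ^ 2)) * (4 * (1 - 1 / (m : ℝ) ^ 2)) ^ s.card :=
          mul_le_mul_of_nonneg_left ih h0
      _ = (4 * (1 - 1 / (m : ℝ) ^ 2)) ^ (s.card + 1) := by ring

lemma geom_bound (m L : ℕ) (hm : 0 < m) :
    (1 - 1 / (m : ℝ) ^ 2) ^ (m ^ 2 * L) ≤ (1 / 2 : ℝ) ^ L := by
  have hm' : (1 : ℝ) ≤ m := by exact_mod_cast hm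
  have h0 : (0 : ℝ) ≤ 1 - 1 / (m : ℝ) ^ 2 := by
    have : 1 / (m : ℝ) ^ 2 ≤ 1 := by
      rw [div_le_one (by positivity)]
      exact one_le_pow₀ hm'
    linarith
  rw [pow_mul]
  refine pow_le_pow_left₀ (pow_nonneg h0 _) ?_ L
  have h1 : 1 - 1 / (m : ℝ) ^ 2 ≤ Real.exp (-(1 / (m : ℝ) ^ 2)) := by
    have := Real.add_one_le_exp (-(1 / (m : ℝ) ^ 2))
    linarith
  calc (1 - 1 / (m : ℝ) ^ 2) ^ (m ^ 2) ≤ (Real.exp (-(1 / (m : ℝ) ^ 2))) ^ (m ^ 2) :=
        pow_le_pow_left₀ h0 h1 _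
    _ = Real.exp (-1) := by
        rw [← Real.exp_nat_mul]
        congr 1
        push_cast
        field_simp
    _ ≤ 1 / 2 := by
        rw [Real.exp_neg, inv_eq_one_div]
        have := Real.add_one_le_exp (1 : ℝ)
        exact one_div_le_one_div_of_le (by norm_num) (by linarith)

end Pool.Agent.RS
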