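import Pool.Agent.RS.LowDeg

/-!
# The one-sided degree bound
-/

set_option autoImplicit false

namespace Pool.Agent.RS

open Finset

variable {F : Type*} [Field F] {V : Type*} [Fintype V] [DecidableEq V]

/-- Double counting: the translates of a ball cover every point equally often. -/
lemma sum_translate (r : ℕ) (S : Finset (Finset V)) :
    ∑ a : Finset V, (S.filter fun z => (symmDiff z a).card ≤ r).card =
      S.card * ((univ : Finset (Finset V)).filter fun z => z.card ≤ r).card := by
  have h1 : ∀ a : Finset V, (S.filter fun z => (symmDiff z a).card ≤ r).card =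
      ∑ z ∈ S, if (symmDiff z a).card ≤ r then 1 else 0 := fun a => by
    rw [Finset.card_filter]
  simp only [h1]
  rw [Finset.sum_comm]
  have h2 : ∀ z ∈ S, (∑ a : Finset V, if (symmDiff z a).card ≤ r then 1 else 0) =
      ((univ : Finset (Finset V)).filter fun z => z.card ≤ r).card := by
    intro z _
    rw [Finset.card_filter]
    exact Fintype.sum_bijective (fun a => symmDiff z a)
      (Function.Involutive.bijective fun a => by simp) _ _ fun a => rfl
  rw [Finset.sum_congr rfl h2, Finset.sum_const, smul_eq_mul]

/-- If a function of degree at most `D` equals the indicator of `g` outside `E`, where `g` is false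
on all sets with fewer than `M` elements, then `g` is true on few points. -/
theorem one_sided {M D : ℕ} (hD : D < M) (g : Finset V → Prop) [DecidablePred g]
    (hg : ∀ z, g z → M ≤ z.card) (P : Finset V → F) (hP : P ∈ lowDeg F V D)
    (E : Finset (Finset V)) (hE : ∀ z, z ∉ E → P z = if g z then 1 else 0)
    (S : Finset (Finset V)) (hS : ∀ z ∈ S, g z) :
    S.card * ((univ : Finset (Finset V)).filter fun z => z.card ≤ M - 1 - D).card ≤
      E.card * 2 ^ Fintype.card V := by
  classical
  by_contra hcon
  push Not at hcon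
  set r := M - 1 - D with hr
  obtain ⟨a, ha⟩ : ∃ a : Finset V, E.card < (S.filter fun z => (symmDiff z a).card ≤ r).card := by
    by_contra h
    push Not at h
    have h1 := Finset.sum_le_sum (s := (univ : Finset (Finset V))) fun a _ => h a
    rw [sum_translate] at h1
    simp only [Finset.sum_const, Finset.card_univ, Fintype.card_finset, smul_eq_mul] at h1
    rw [mul_comm (2 ^ _)] at h1
    omega
  set Sa := S.filter fun z => (symmDiff z a).card ≤ r with hSa
  have hch : ∀ z : Finset V, ∃ δ : Finset V → F, z ∈ Sa → δ ∈ lowDeg F V r ∧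
      δ z = 1 ∧ ∀ y ∈ Sa, y ≠ z → δ y = 0 := by
    intro z
    by_cases hz : z ∈ Sa
    · obtain ⟨δ, h1, h2, h3⟩ := exists_delta (F := F) r (symmDiff z a) (mem_filter.mp hz).2
      refine ⟨fun y => δ (symmDiff y a), fun _ => ⟨symmDiff_mem_lowDeg a h1, h2, ?_⟩⟩
      intro y hy hyz
      refine h3 _ (mem_filter.mp hy).2 fun h => hyz ?_
      exact symmDiff_left_injective a h
    · exact ⟨0, fun h => absurd h hz⟩
  choose δ hδ using hch
  let Φ : (Sa → F) →ₗ[F] (E → F) :=
    { toFun := fun h e => ∑ z : Sa, h z * δ z e
      map_add' := fun h h' => by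
        funext e
        simp [add_mul, Finset.sum_add_distrib]
      map_smul' := fun c h => by
        funext e
        simp [mul_assoc, Finset.mul_sum] }
  have hlt : Module.finrank F (E → F) < Module.finrank F (Sa → F) := by
    simpa using ha
  obtain ⟨h, hker, hne⟩ : ∃ h ∈ LinearMap.ker Φ, h ≠ 0 := by
    have := LinearMap.ker_ne_bot_of_finrank_lt (f := Φ) hlt
    exact (Submodule.ne_bot_iff _).mp this
  let R : Finset V → F := ∑ z : Sa, h z • δ z
  have hR : R ∈ lowDeg F V r := Submodule.sum_mem _ fun z _ =>
    Submodule.smul_mem _ _ (hδ z z.2).1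
  have hRE : ∀ e ∈ E, R e = 0 := by
    intro e he
    have := congrFun (LinearMap.mem_ker.mp hker) ⟨e, he⟩
    simpa [Φ, R, Finset.sum_apply] using this
  have hRS : ∀ z : Sa, R z = h z := by
    intro z
    have h1 : R z = ∑ y : Sa, h y * δ y z := by simp [R, Finset.sum_apply]
    rw [h1, Finset.sum_eq_single z]
    · rw [(hδ z z.2).2.1, mul_one]
    · intro y _ hyz
      rw [(hδ y y.2).2.2 z z.2 (fun h => hyz (Subtype.ext h.symm)), mul_zero]
    · intro h'; exact absurd (mem_univ z) h'
  obtain ⟨z, hz⟩ : ∃ z : Sa, h z ≠ 0 := by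
    by_contra h'
    push Not at h'
    exact hne (funext h')
  have hQ : P * R ∈ lowDeg F V (M - 1) := by
    have := mul_mem_lowDeg hP hR
    have h2 : D + r = M - 1 := by omega
    rwa [h2] at this
  have hQ0 := eq_zero_of_vanish hQ (fun y hy => by
    by_cases hyE : y ∈ E
    · simp [hRE y hyE]
    · rw [Pi.mul_apply, hE y hyE, if_neg, zero_mul]
      intro hgy
      have := hg y hgy
      omega) z
  have hRz : R z ≠ 0 := by rw [hRS z]; exact hz
  have hzE : (z : Finset V) ∉ E := fun h' => hRz (hRE _ h')
  have hgz : g z := hS z (mem_filter.mp z.2).1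
  rw [Pi.mul_apply, hE _ hzE, if_pos hgz, one_mul] at hQ0
  exact hRz hQ0

end Pool.Agent.RS
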