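import Pool.Agent.RS.Razborov
import Pool.Agent.RS.OneSided

/-!
# Circuits with a one-sided jump at the middle slice are large
-/

set_option autoImplicit false

namespace Pool.Agent.RS

open Finset

lemma choose_ratio (M j : ℕ) (h : j ^ 2 ≤ M) :
    (M - j ^ 2) * (2 * M).choose M ≤ M * (2 * M).choose (M - j) := by
  induction j with
  | zero => simp
  | succ j ih =>
    have hj : j ^ 2 ≤ M := (Nat.pow_le_pow_left (Nat.le_succ j) 2).trans h
    have ih := ih hj
    have hjM : j + 1 ≤ M := by nlinarith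
    have h1 : (2 * M).choose (M - j) * (M - j) = (2 * M).choose (M - (j + 1)) * (M + j + 1) := by
      have h2 := Nat.choose_succ_right_eq (2 * M) (M - (j + 1))
      have h3 : M - (j + 1) + 1 = M - j := by omega
      have h4 : 2 * M - (M - (j + 1)) = M + j + 1 := by omega
      rw [h3, h4] at h2
      exact h2
    -- multiply by M + j + 1 > 0
    refine Nat.le_of_mul_le_mul_right (c := M + j + 1) ?_ (by omega)
    calc (M - (j + 1) ^ 2) * (2 * M).choose M * (M + j + 1)
        = ((M - (j + 1) ^ 2) * (M + j + 1)) * (2 * M).choose M := by ring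
      _ ≤ ((M - j ^ 2) * (M - j)) * (2 * M).choose M := by
          refine Nat.mul_le_mul_right _ ?_
          zify [h, hj, (by omega : j ≤ M)]
          nlinarith [sq_nonneg (j : ℤ), pow_nonneg (Int.natCast_nonneg j) 3]
      _ = ((M - j ^ 2) * (2 * M).choose M) * (M - j) := by ring
      _ ≤ (M * (2 * M).choose (M - j)) * (M - j) := Nat.mul_le_mul_right _ ih
      _ = M * ((2 * M).choose (M - j) * (M - j)) := by ring
      _ = M * ((2 * M).choose (M - (j + 1)) * (M + j + 1)) := by rw [h1]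
      _ = M * (2 * M).choose (M - (j + 1)) * (M + j + 1) := by ring

lemma choose_half (M j : ℕ) (h : 2 * j ^ 2 ≤ M) :
    (2 * M).choose M ≤ 2 * (2 * M).choose (M - j) := by
  rcases Nat.eq_zero_or_pos M with h0 | h0
  · subst h0; simp
  · have h1 := choose_ratio M j (by omega)
    refine Nat.le_of_mul_le_mul_left ?_ h0
    calc M * (2 * M).choose M ≤ (2 * (M - j ^ 2)) * (2 * M).choose M :=
          Nat.mul_le_mul_right _ (by omega)
      _ = 2 * ((M - j ^ 2) * (2 * M).choose M) := by ring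
      _ ≤ 2 * (M * (2 * M).choose (M - j)) := Nat.mul_le_mul_left _ h1
      _ = M * (2 * (2 * M).choose (M - j)) := by ring

variable {p : ℕ} [Fact p.Prime] {U V : Type} [Fintype U] [DecidableEq U] [Fintype V]
  [DecidableEq V] {s : ℕ}

/-- **One-sided Razborov-Smolensky bound.** If a circuit (with inputs substituted by functions of
degree at most one) rejects all sets with fewer than `M` elements of a `2 M`-element set and
accepts a fraction `1 / σ` of the `M`-element sets, then it is large. -/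
theorem center_bound (C : Circuit V s) (inp : Finset U → V → Bool)
    (hin : ∀ v, (fun z => ind p (inp z v)) ∈ lowDeg (ZMod p) U 1)
    {M σ ℓ : ℕ} (hU : Fintype.card U = 2 * M) (hℓ : 1 ≤ ℓ)
    (hrej : ∀ z, C.Accepts p (inp z) → M ≤ z.card)
    (S : Finset (Finset U)) (hS : ∀ z ∈ S, C.Accepts p (inp z))
    (hcard : (2 * M).choose M ≤ σ * S.card)
    (hdeg : 2 * (((p - 1) * ℓ) ^ (C.level C.out + 1) + 1) ^ 2 ≤ M) :
    p ^ ℓ ≤ 8 * M ^ 2 * σ * s := by
  classical
  obtain ⟨P, E, hP, hE, hPE⟩ := circuit_approx C inp hin ℓ hℓ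
  set D := ((p - 1) * ℓ) ^ (C.level C.out + 1) with hD
  have hM : 0 < M := by
    have : 0 < 2 * (D + 1) ^ 2 := by positivity
    omega
  have hDM : D < M := by nlinarith
  have h1 := one_sided (F := ZMod p) hDM (fun z => C.Accepts p (inp z)) hrej P hP E
    (fun z hz => by
      by_cases h : C.Accepts p (inp z)
      · rw [if_pos h]; exact (hPE z hz).1 h
      · rw [if_neg h]; exact (hPE z hz).2 h) S hS
  -- the size of the ball
  have h2 : (2 * M).choose M ≤
      2 * ((univ : Finset (Finset U)).filter fun z => z.card ≤ M - 1 - D).card := by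
    refine (choose_half M (D + 1) hdeg).trans (Nat.mul_le_mul_left _ ?_)
    have h3 : (2 * M).choose (M - (D + 1)) =
        (Finset.powersetCard (M - (D + 1)) (univ : Finset U)).card := by
      rw [Finset.card_powersetCard, Finset.card_univ, hU]
    rw [h3]
    refine Finset.card_le_card fun z hz => ?_
    rw [Finset.mem_powersetCard] at hz
    rw [mem_filter]
    exact ⟨mem_univ z, by rw [hz.2]; omega⟩
  rw [hU] at h1 hE
  have h4 : (4 : ℕ) ^ M ≤ 2 * M * (2 * M).choose M := by
    have := Nat.four_pow_le_two_mul_self_mul_centralBinom M hM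
    rwa [Nat.centralBinom] at this
  have h5 : (2 : ℕ) ^ (2 * M) = 4 ^ M := by rw [pow_mul]; norm_num
  rw [h5] at h1 hE
  set B := ((univ : Finset (Finset U)).filter fun z => z.card ≤ M - 1 - D).card with hB
  set c := (2 * M).choose M with hc
  -- combine
  have h6 : (4 ^ M * 4 ^ M) * p ^ ℓ ≤ (8 * M ^ 2 * σ * s) * (4 ^ M * 4 ^ M) := by
    calc (4 ^ M * 4 ^ M) * p ^ ℓ ≤ ((2 * M * c) * (2 * M * c)) * p ^ ℓ :=
          Nat.mul_le_mul_right _ (Nat.mul_le_mul h4 h4)
      _ = (4 * M ^ 2) * (c * c) * p ^ ℓ := by ring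
      _ ≤ (4 * M ^ 2) * ((σ * S.card) * (2 * B)) * p ^ ℓ :=
          Nat.mul_le_mul_right _ (Nat.mul_le_mul_left _ (Nat.mul_le_mul hcard h2))
      _ = (8 * M ^ 2 * σ) * (S.card * B) * p ^ ℓ := by ring
      _ ≤ (8 * M ^ 2 * σ) * (E.card * 4 ^ M) * p ^ ℓ :=
          Nat.mul_le_mul_right _ (Nat.mul_le_mul_left _ h1)
      _ = (8 * M ^ 2 * σ) * 4 ^ M * (E.card * p ^ ℓ) := by ring
      _ ≤ (8 * M ^ 2 * σ) * 4 ^ M * (s * 4 ^ M) := Nat.mul_le_mul_left _ hE
      _ = (8 * M ^ 2 * σ * s) * (4 ^ M * 4 ^ M) := by ring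
  rw [mul_comm] at h6
  exact Nat.le_of_mul_le_mul_right h6 (by positivity)

end Pool.Agent.RS
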