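import Mathlib

/-!
# Recentring: a dense set of `h`-element sets is dense in the middle slice of some subcube
-/

set_option autoImplicit false

namespace Pool.Agent.RS

open Finset

variable {J : Type} [Fintype J] [DecidableEq J]

lemma recenter_count (h M : ℕ) (hM : M ≤ h) (T : Finset (Finset J)) (hT : ∀ z ∈ T, z.card = h) :
    ((univ : Finset (Finset J × Finset J × Finset J)).filter fun q =>
      Disjoint q.1 q.2.1 ∧ q.1.card = 2 * M ∧ q.2.1.card = h - M ∧
        q.2.2 ⊆ q.1 ∧ q.2.2.card = M ∧ q.2.1 ∪ q.2.2 ∈ T).card =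
      T.card * (h.choose M * (Fintype.card J - h).choose M) := by
  classical
  have h1 : T.card * (h.choose M * (Fintype.card J - h).choose M) =
      (T.sigma fun z => (z.powersetCard M) ×ˢ (zᶜ.powersetCard M)).card := by
    rw [Finset.card_sigma, Finset.sum_congr rfl fun z hz => ?_, Finset.sum_const, smul_eq_mul]
    rw [Finset.card_product, Finset.card_powersetCard, Finset.card_powersetCard, hT z hz,
      Finset.card_compl, hT z hz]
  rw [h1]
  refine Finset.card_bij' (fun q _ => ⟨q.2.1 ∪ q.2.2, q.2.2, q.1 \ q.2.2⟩)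
    (fun w _ => (w.2.1 ∪ w.2.2, w.1 \ w.2.1, w.2.1)) ?_ ?_ ?_ ?_
  · rintro ⟨A, Y, Z⟩ hq
    simp only [mem_filter, mem_univ, true_and] at hq
    obtain ⟨h1, h2, h3, h4, h5, h6⟩ := hq
    simp only [mem_sigma, mem_product, mem_powersetCard]
    refine ⟨h6, ⟨subset_union_right, h5⟩, ?_, ?_⟩
    · intro a ha
      rw [mem_sdiff] at ha
      rw [mem_compl, mem_union, not_or]
      exact ⟨fun haY => (Finset.disjoint_left.mp h1) ha.1 haY, ha.2⟩
    · rw [card_sdiff_of_subset h4, h2, h5]
      omega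
  · rintro ⟨z, A1, A0⟩ hw
    simp only [mem_sigma, mem_product, mem_powersetCard] at hw
    obtain ⟨h1, ⟨h2, h3⟩, h4, h5⟩ := hw
    simp only [mem_filter, mem_univ, true_and]
    have hd : Disjoint A1 A0 := by
      rw [Finset.disjoint_left]
      intro a ha ha'
      exact (mem_compl.mp (h4 ha')) (h2 ha)
    refine ⟨?_, ?_, ?_, subset_union_left, h3, ?_⟩
    · rw [Finset.disjoint_left]
      intro a ha ha'
      rw [mem_sdiff] at ha'
      rcases mem_union.mp ha with h | h
      · exact ha'.2 h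
      · exact (mem_compl.mp (h4 h)) ha'.1
    · rw [card_union_of_disjoint hd, h3, h5]
      omega
    · rw [card_sdiff_of_subset h2, hT z h1, h3]
    · rw [sdiff_union_of_subset h2]
      exact h1
  · rintro ⟨A, Y, Z⟩ hq
    simp only [mem_filter, mem_univ, true_and] at hq
    obtain ⟨h1, h2, h3, h4, h5, h6⟩ := hq
    have hYZ : Disjoint Y Z := by
      rw [Finset.disjoint_left]
      intro a ha ha'
      exact (Finset.disjoint_left.mp h1) (h4 ha') ha
    simp only [Prod.mk.injEq]
    refine ⟨union_sdiff_of_subset h4, ?_, trivial⟩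
    exact union_sdiff_cancel_right hYZ
  · rintro ⟨z, A1, A0⟩ hw
    simp only [mem_sigma, mem_product, mem_powersetCard] at hw
    obtain ⟨h1, ⟨h2, h3⟩, h4, h5⟩ := hw
    have hd : Disjoint A1 A0 := by
      rw [Finset.disjoint_left]
      intro a ha ha'
      exact (mem_compl.mp (h4 ha')) (h2 ha)
    have e1 : z \ A1 ∪ A1 = z := sdiff_union_of_subset h2
    have e2 : (A1 ∪ A0) \ A1 = A0 := union_sdiff_cancel_left hd
    simp only [e1, e2]

/-- Recentring. -/
theorem recenter (h M : ℕ) (hM : M ≤ h) (hM' : M + h ≤ Fintype.card J) (T : Finset (Finset J))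
    (hT : ∀ z ∈ T, z.card = h) (σ : ℕ) (hcard : (Fintype.card J).choose h ≤ σ * T.card) :
    ∃ A Y : Finset J, Disjoint A Y ∧ A.card = 2 * M ∧ Y.card = h - M ∧
      (2 * M).choose M ≤ σ * ((A.powersetCard M).filter fun Z => Y ∪ Z ∈ T).card := by
  classical
  by_contra hcon
  push Not at hcon
  -- the pairs
  let Q : Finset (Finset J × Finset J) := univ.filter fun q =>
    Disjoint q.1 q.2 ∧ q.1.card = 2 * M ∧ q.2.card = h - M
  have hsum : ∀ T' : Finset (Finset J), (∀ z ∈ T', z.card = h) →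
      ∑ q ∈ Q, ((q.1.powersetCard M).filter fun Z => q.2 ∪ Z ∈ T').card =
        T'.card * (h.choose M * (Fintype.card J - h).choose M) := by
    intro T' hT'
    rw [← recenter_count h M hM T' hT', ← Finset.card_sigma]
    refine Finset.card_bij' (fun w _ => (w.1.1, w.1.2, w.2)) (fun q _ => ⟨(q.1, q.2.1), q.2.2⟩)
      ?_ ?_ ?_ ?_
    · rintro ⟨⟨A, Y⟩, Z⟩ hw
      simp only [Q, mem_sigma, mem_filter, mem_univ, true_and, mem_powersetCard] at hw ⊢
      exact ⟨hw.1.1, hw.1.2.1, hw.1.2.2, hw.2.1.1, hw.2.1.2, hw.2.2⟩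
    · rintro ⟨A, Y, Z⟩ hw
      simp only [Q, mem_sigma, mem_filter, mem_univ, true_and, mem_powersetCard] at hw ⊢
      exact ⟨⟨hw.1, hw.2.1, hw.2.2.1⟩, ⟨hw.2.2.2.1, hw.2.2.2.2.1⟩, hw.2.2.2.2.2⟩
    · rintro ⟨⟨A, Y⟩, Z⟩ _; rfl
    · rintro ⟨A, Y, Z⟩ _; rfl
  have hall : ∑ q ∈ Q, (2 * M).choose M =
      (Fintype.card J).choose h * (h.choose M * (Fintype.card J - h).choose M) := by
    have h1 := hsum (powersetCard h univ) fun z hz => (mem_powersetCard.mp hz).2
    rw [Finset.card_powersetCard, Finset.card_univ] at h1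
    rw [← h1]
    refine Finset.sum_congr rfl fun q hq => ?_
    simp only [Q, mem_filter, mem_univ, true_and] at hq
    rw [Finset.filter_true_of_mem, Finset.card_powersetCard, hq.2.1]
    intro Z hZ
    rw [mem_powersetCard] at hZ ⊢
    refine ⟨subset_univ _, ?_⟩
    rw [card_union_of_disjoint, hq.2.2, hZ.2]
    · omega
    · exact hq.1.symm.mono_right hZ.1
  have hpos : 0 < h.choose M * (Fintype.card J - h).choose M :=
    Nat.mul_pos (Nat.choose_pos hM) (Nat.choose_pos (by omega))
  have hne : Q.Nonempty := by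
    rw [Finset.nonempty_iff_ne_empty]
    intro h0
    rw [h0, Finset.sum_empty] at hall
    have : 0 < (Fintype.card J).choose h := Nat.choose_pos (by omega)
    have := Nat.mul_pos this hpos
    omega
  have hlt : ∑ q ∈ Q, σ * ((q.1.powersetCard M).filter fun Z => q.2 ∪ Z ∈ T).card <
      ∑ q ∈ Q, (2 * M).choose M := by
    refine Finset.sum_lt_sum_of_nonempty hne fun q hq => ?_
    simp only [Q, mem_filter, mem_univ, true_and] at hq
    exact hcon q.1 q.2 hq.1 hq.2.1 hq.2.2
  rw [← Finset.mul_sum, hsum T hT, hall, ← mul_assoc] at hlt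
  exact absurd (Nat.mul_le_mul_right (h.choose M * (Fintype.card J - h).choose M) hcard)
    (not_le.mpr hlt)

end Pool.Agent.RS
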