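import Mathlib

/-!
# Functions of low degree on the cube of subsets of a finite type
-/

set_option autoImplicit false

namespace Pool.Agent.RS

open Finset

variable {F : Type*} [Field F] {V : Type*} [Fintype V] [DecidableEq V]

/-- The monomial of the variables in `S`, as a function on the cube of subsets. -/
def mono (F : Type*) [Field F] (S : Finset V) : Finset V → F := fun z => if S ⊆ z then 1 else 0

/-- Functions on the cube that are combinations of monomials of at most `D` variables. -/
def lowDeg (F : Type*) [Field F] (V : Type*) [Fintype V] [DecidableEq V] (D : ℕ) :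
    Submodule F (Finset V → F) :=
  Submodule.span F {f | ∃ S : Finset V, S.card ≤ D ∧ f = mono F S}

lemma mono_mem {D : ℕ} (S : Finset V) (h : S.card ≤ D) : mono F S ∈ lowDeg F V D :=
  Submodule.subset_span ⟨S, h, rfl⟩

omit [Fintype V] in
lemma mono_mul (S T : Finset V) : mono F S * mono F T = mono F (S ∪ T) := by
  funext z
  simp only [mono, Pi.mul_apply, Finset.union_subset_iff]
  by_cases h1 : S ⊆ z <;> by_cases h2 : T ⊆ z <;> simp [h1, h2]

lemma lowDeg_mono {D E : ℕ} (h : D ≤ E) : lowDeg F V D ≤ lowDeg F V E := by
  refine Submodule.span_mono ?_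
  rintro f ⟨S, hS, rfl⟩
  exact ⟨S, hS.trans h, rfl⟩

lemma one_mem_lowDeg (D : ℕ) : (1 : Finset V → F) ∈ lowDeg F V D := by
  have : (1 : Finset V → F) = mono F ∅ := by
    funext z; simp [mono]
  rw [this]
  exact mono_mem _ (by simp)

lemma const_mem_lowDeg (D : ℕ) (c : F) : (fun _ => c : Finset V → F) ∈ lowDeg F V D := by
  have : (fun _ => c : Finset V → F) = c • (1 : Finset V → F) := by
    funext z; simp
  rw [this]
  exact Submodule.smul_mem _ _ (one_mem_lowDeg D)

lemma mul_mem_lowDeg {D E : ℕ} {f g : Finset V → F} (hf : f ∈ lowDeg F V D)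
    (hg : g ∈ lowDeg F V E) : f * g ∈ lowDeg F V (D + E) := by
  induction hf using Submodule.span_induction with
  | mem f hf =>
    obtain ⟨S, hS, rfl⟩ := hf
    induction hg using Submodule.span_induction with
    | mem g hg =>
      obtain ⟨T, hT, rfl⟩ := hg
      rw [mono_mul]
      exact mono_mem _ ((card_union_le _ _).trans (Nat.add_le_add hS hT))
    | zero => simp
    | add g h _ _ hg hh => rw [mul_add]; exact Submodule.add_mem _ hg hh
    | smul a g _ hg => rw [mul_smul_comm]; exact Submodule.smul_mem _ _ hg
  | zero => simp
  | add f h _ _ hf hh => rw [add_mul]; exact Submodule.add_mem _ hf hh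
  | smul a f _ hf => rw [smul_mul_assoc]; exact Submodule.smul_mem _ _ hf

lemma pow_mem_lowDeg {D : ℕ} {f : Finset V → F} (hf : f ∈ lowDeg F V D) (k : ℕ) :
    f ^ k ∈ lowDeg F V (k * D) := by
  induction k with
  | zero => simpa using one_mem_lowDeg 0
  | succ k ih =>
    rw [pow_succ, Nat.succ_mul]
    exact mul_mem_lowDeg ih hf

lemma prod_mem_lowDeg {ι : Type*} {D : ℕ} (s : Finset ι) (f : ι → Finset V → F)
    (hf : ∀ i ∈ s, f i ∈ lowDeg F V D) : (∏ i ∈ s, f i) ∈ lowDeg F V (s.card * D) := by
  classical
  induction s using Finset.induction_on with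
  | empty => simpa using one_mem_lowDeg 0
  | insert a s ha ih =>
    rw [prod_insert ha, card_insert_of_notMem ha, Nat.succ_mul, add_comm]
    exact mul_mem_lowDeg (hf a (mem_insert_self a s))
      (ih fun i hi => hf i (mem_insert_of_mem hi))

lemma sum_mem_lowDeg {ι : Type*} {D : ℕ} (s : Finset ι) (f : ι → Finset V → F)
    (hf : ∀ i ∈ s, f i ∈ lowDeg F V D) : (∑ i ∈ s, f i) ∈ lowDeg F V D :=
  Submodule.sum_mem _ hf

lemma mem_lit (j : V) : (fun z => if j ∈ z then (1 : F) else 0) ∈ lowDeg F V 1 := by
  have : (fun z : Finset V => if j ∈ z then (1 : F) else 0) = mono F {j} := by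
    funext z; simp [mono]
  rw [this]
  exact mono_mem _ (by simp)

lemma notMem_lit (j : V) : (fun z => if j ∈ z then (0 : F) else 1) ∈ lowDeg F V 1 := by
  have : (fun z : Finset V => if j ∈ z then (0 : F) else 1) =
      1 - (fun z => if j ∈ z then (1 : F) else 0) := by
    funext z
    by_cases h : j ∈ z <;> simp [h]
  rw [this]
  exact Submodule.sub_mem _ (one_mem_lowDeg 1) (mem_lit j)

lemma symmDiff_mem_lowDeg {D : ℕ} (a : Finset V) {f : Finset V → F} (hf : f ∈ lowDeg F V D) :
    (fun z => f (symmDiff z a)) ∈ lowDeg F V D := by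
  induction hf using Submodule.span_induction with
  | mem f hf =>
    obtain ⟨S, hS, rfl⟩ := hf
    have : (fun z => mono F S (symmDiff z a)) =
        ∏ i ∈ S, (fun z : Finset V => if i ∈ symmDiff z a then (1 : F) else 0) := by
      funext z
      rw [Finset.prod_apply]
      simp only [mono]
      by_cases h : S ⊆ symmDiff z a
      · rw [if_pos h]
        symm
        exact Finset.prod_eq_one fun i hi => if_pos (h hi)
      · rw [if_neg h]
        symm
        obtain ⟨i, hi, hi2⟩ := Finset.not_subset.mp h
        exact Finset.prod_eq_zero hi (if_neg hi2)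
    rw [this]
    have h2 := prod_mem_lowDeg (D := 1) S
      (fun i (z : Finset V) => if i ∈ symmDiff z a then (1 : F) else 0) (fun i _ => by
        by_cases hia : i ∈ a
        · have : (fun z : Finset V => if i ∈ symmDiff z a then (1 : F) else 0) =
              fun z => if i ∈ z then (0 : F) else 1 := by
            funext z
            by_cases hz : i ∈ z <;> simp [mem_symmDiff, hia, hz]
          simpa [this] using notMem_lit (F := F) i
        · have : (fun z : Finset V => if i ∈ symmDiff z a then (1 : F) else 0) =
              fun z => if i ∈ z then (1 : F) else 0 := by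
            funext z
            by_cases hz : i ∈ z <;> simp [mem_symmDiff, hia, hz]
          simpa [this] using mem_lit (F := F) i)
    rw [mul_one] at h2
    exact lowDeg_mono hS h2
  | zero => exact Submodule.zero_mem _
  | add f g _ _ hf hg => exact Submodule.add_mem _ hf hg
  | smul c f _ hf => exact Submodule.smul_mem _ c hf

/-- The alternating sum over the subsets of a set with more than `D` elements vanishes on
functions of degree at most `D`. -/
lemma alt_sum_eq_zero {D : ℕ} {f : Finset V → F} (hf : f ∈ lowDeg F V D) (z : Finset V)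
    (hz : D < z.card) : ∑ T ∈ z.powerset, (-1 : F) ^ T.card * f T = 0 := by
  induction hf using Submodule.span_induction with
  | mem f hf =>
    obtain ⟨S, hS, rfl⟩ := hf
    by_cases hSz : S ⊆ z
    · have hne : (z \ S).Nonempty := by
        rw [← Finset.card_pos, Finset.card_sdiff_of_subset hSz]
        omega
      have key : ∑ T ∈ z.powerset, (-1 : F) ^ T.card * mono F S T =
          ∑ U ∈ (z \ S).powerset, (-1 : F) ^ (S.card + U.card) := by
        have h1 : ∑ T ∈ z.powerset, (-1 : F) ^ T.card * mono F S T =
            ∑ T ∈ z.powerset.filter (fun T => S ⊆ T), (-1 : F) ^ T.card := by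
          rw [Finset.sum_filter]
          refine Finset.sum_congr rfl fun T _ => ?_
          by_cases h : S ⊆ T <;> simp [mono, h]
        rw [h1]
        refine Finset.sum_bij' (fun T _ => T \ S) (fun U _ => S ∪ U) ?_ ?_ ?_ ?_ ?_
        · intro T hT
          simp only [mem_filter, mem_powerset] at hT
          simp only [mem_powerset]
          exact sdiff_subset_sdiff hT.1 (le_refl S)
        · intro U hU
          simp only [mem_powerset] at hU
          simp only [mem_filter, mem_powerset]
          exact ⟨union_subset hSz (hU.trans sdiff_subset), subset_union_left⟩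
        · intro T hT
          simp only [mem_filter, mem_powerset] at hT
          exact union_sdiff_of_subset hT.2
        · intro U hU
          simp only [mem_powerset] at hU
          have hd : Disjoint S U := by
            rw [Finset.disjoint_left]
            intro i hi hiU
            exact (mem_sdiff.mp (hU hiU)).2 hi
          exact union_sdiff_cancel_left hd
        · intro T hT
          simp only [mem_filter, mem_powerset] at hT
          rw [card_sdiff_of_subset hT.2]
          congr 1
          have := card_le_card hT.2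
          omega
      rw [key]
      have h2 : ∑ U ∈ (z \ S).powerset, (-1 : F) ^ (S.card + U.card) =
          (-1 : F) ^ S.card * ∑ U ∈ (z \ S).powerset, (-1 : F) ^ U.card := by
        rw [Finset.mul_sum]
        exact Finset.sum_congr rfl fun U _ => pow_add _ _ _
      rw [h2]
      have h3 : ∑ U ∈ (z \ S).powerset, (-1 : F) ^ U.card = 0 := by
        have h4 := Finset.sum_powerset_neg_one_pow_card_of_nonempty hne
        have h5 : ((∑ U ∈ (z \ S).powerset, (-1 : ℤ) ^ U.card : ℤ) : F) = 0 := by
          rw [h4]; simp
        push_cast at h5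
        exact h5
      rw [h3, mul_zero]
    · refine Finset.sum_eq_zero fun T hT => ?_
      have : ¬ S ⊆ T := fun h => hSz (h.trans (mem_powerset.mp hT))
      simp [mono, this]
  | zero => simp
  | add f g _ _ hf hg =>
    simp only [Pi.add_apply, mul_add, Finset.sum_add_distrib, hf, hg, add_zero]
  | smul c f _ hf =>
    have : ∑ T ∈ z.powerset, (-1 : F) ^ T.card * (c • f) T =
        c * ∑ T ∈ z.powerset, (-1 : F) ^ T.card * f T := by
      rw [Finset.mul_sum]
      refine Finset.sum_congr rfl fun T _ => ?_
      simp only [Pi.smul_apply, smul_eq_mul]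
      ring
    rw [this, hf, mul_zero]

/-- A function of degree at most `D` that vanishes on all sets with at most `D` elements is
zero. -/
lemma eq_zero_of_vanish {D : ℕ} {f : Finset V → F} (hf : f ∈ lowDeg F V D)
    (h0 : ∀ z : Finset V, z.card ≤ D → f z = 0) : ∀ z, f z = 0 := by
  intro z
  induction hn : z.card using Nat.strong_induction_on generalizing z with
  | _ n ih =>
    by_cases hz : z.card ≤ D
    · exact h0 z hz
    · push Not at hz
      have h1 := alt_sum_eq_zero hf z hz
      rw [← Finset.add_sum_erase _ _ (mem_powerset_self z)] at h1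
      have h2 : ∑ T ∈ z.powerset.erase z, (-1 : F) ^ T.card * f T = 0 := by
        refine Finset.sum_eq_zero fun T hT => ?_
        rw [mem_erase, mem_powerset] at hT
        have h3 : T ⊂ z := lt_of_le_of_ne hT.2 hT.1
        rw [ih T.card (by rw [← hn]; exact card_lt_card h3) T rfl, mul_zero]
      rw [h2, add_zero] at h1
      have h4 : ((-1 : F) ^ z.card) ≠ 0 := pow_ne_zero _ (by simp)
      exact (mul_eq_zero.mp h1).resolve_left h4

/-- Dual basis for the ball of radius `r`. -/
lemma exists_delta (r : ℕ) (z : Finset V) (hz : z.card ≤ r) :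
    ∃ δ ∈ lowDeg F V r, δ z = 1 ∧ ∀ y : Finset V, y.card ≤ r → y ≠ z → δ y = 0 := by
  induction hn : r - z.card using Nat.strong_induction_on generalizing z with
  | _ n ih =>
    classical
    -- choose deltas for the proper supersets in the ball
    have hch : ∀ y : Finset V, ∃ δ : Finset V → F, z ⊂ y → y.card ≤ r →
        δ ∈ lowDeg F V r ∧ δ y = 1 ∧ ∀ y' : Finset V, y'.card ≤ r → y' ≠ y → δ y' = 0 := by
      intro y
      by_cases h : z ⊂ y ∧ y.card ≤ r
      · have h1 := card_lt_card h.1
        obtain ⟨δ, h2, h3, h4⟩ := ih (r - y.card) (by omega) y h.2 rfl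
        exact ⟨δ, fun _ _ => ⟨h2, h3, h4⟩⟩
      · refine ⟨0, fun h1 h2 => absurd ⟨h1, h2⟩ h⟩
    choose δ hδ using hch
    let S : Finset (Finset V) := univ.filter fun y => z ⊂ y ∧ y.card ≤ r
    refine ⟨mono F z - ∑ y ∈ S, δ y, ?_, ?_, ?_⟩
    · refine Submodule.sub_mem _ (mono_mem _ hz) (Submodule.sum_mem _ fun y hy => ?_)
      have := (mem_filter.mp hy).2
      exact (hδ y this.1 this.2).1
    · rw [Pi.sub_apply, Finset.sum_apply]
      have h1 : ∑ y ∈ S, δ y z = 0 := by
        refine Finset.sum_eq_zero fun y hy => ?_
        have := (mem_filter.mp hy).2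
        exact (hδ y this.1 this.2).2.2 z hz this.1.ne
      rw [h1]
      simp [mono]
    · intro y hy hyz
      rw [Pi.sub_apply, Finset.sum_apply]
      by_cases h : z ⊂ y
      · have hyS : y ∈ S := mem_filter.mpr ⟨mem_univ _, h, hy⟩
        rw [Finset.sum_eq_single y]
        · rw [(hδ y h hy).2.1]
          simp [mono, h.subset]
        · intro y' hy' hne
          have := (mem_filter.mp hy').2
          exact (hδ y' this.1 this.2).2.2 y hy hne.symm
        · intro h'; exact absurd hyS h'
      · have h1 : ¬ z ⊆ y := fun h' => h (lt_of_le_of_ne h' (Ne.symm hyz))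
        have h2 : ∑ y' ∈ S, δ y' y = 0 := by
          refine Finset.sum_eq_zero fun y' hy' => ?_
          have := (mem_filter.mp hy').2
          refine (hδ y' this.1 this.2).2.2 y hy ?_
          rintro rfl
          exact h this.1
        rw [h2]
        simp [mono, h1]

end Pool.Agent.RS
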