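import Pool.Agent.RS.Approx

/-!
# Razborov's approximation of a circuit
-/

set_option autoImplicit false

namespace Pool.Agent.RS

open Finset

variable {p : ℕ} [Fact p.Prime] {U V : Type} [Fintype U] [DecidableEq U] [Fintype V]
  [DecidableEq V] {s : ℕ}

/-- All input weights of a gate. -/
def Circuit.wt (C : Circuit V s) (g : Fin s) : V ⊕ Fin s → ℕ := Sum.elim (C.vw g) (C.gw g)

/-- All wires. -/
def wires (x : V → Bool) (val : Fin s → Bool) : V ⊕ Fin s → Bool := Sum.elim x val

omit [DecidableEq V] in
lemma trueInputs_eq (C : Circuit V s) (x : V → Bool) (val : Fin s → Bool) (g : Fin s) :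
    C.trueInputs x val g = ∑ i, if wires x val i = true then C.wt g i else 0 := by
  rw [Fintype.sum_sum_type]
  rfl

omit [DecidableEq V] in
lemma inputs_eq (C : Circuit V s) (g : Fin s) : C.inputs g = ∑ i, C.wt g i := by
  rw [Fintype.sum_sum_type]
  rfl

/-- One gate is approximated by a polynomial. -/
lemma gate_approx (C : Circuit V s) (inp : Finset U → V → Bool) (val : Finset U → Fin s → Bool)
    (hrun : ∀ z, C.IsRun p (inp z) (val z)) (ℓ : ℕ) (hℓ : 1 ≤ ℓ) (g : Fin s) :
    ∃ (G : (V ⊕ Fin s → ZMod p) → ZMod p) (Bad : Finset (Finset U)),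
      Bad.card * p ^ ℓ ≤ 2 ^ Fintype.card U ∧
      (∀ z, z ∉ Bad → ∀ y : V ⊕ Fin s → ZMod p,
        (∀ i, C.wt g i ≠ 0 → y i = ind p (wires (inp z) (val z) i)) →
          G y = ind p (val z g)) ∧
      (∀ (D : ℕ) (y : V ⊕ Fin s → Finset U → ZMod p),
        (∀ i, C.wt g i ≠ 0 → y i ∈ lowDeg (ZMod p) U D) →
          (fun z => G fun i => y i z) ∈ lowDeg (ZMod p) U ((p - 1) * ℓ * D)) := by
  classical
  have hfire := fun z => hrun z g
  have hcardZ : Fintype.card (Finset U) = 2 ^ Fintype.card U := Fintype.card_finset
  have hsum0 : ∀ z, C.trueInputs (inp z) (val z) g = 0 ↔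
      ¬ ∃ i, (wires (inp z) (val z) i && decide (C.wt g i ≠ 0)) = true := by
    intro z
    rw [trueInputs_eq, Finset.sum_eq_zero_iff]
    constructor
    · rintro h ⟨i, hi⟩
      rw [Bool.and_eq_true, decide_eq_true_eq] at hi
      have := h i (mem_univ i)
      rw [if_pos hi.1] at this
      exact hi.2 this
    · intro h i _
      by_contra hne
      refine h ⟨i, ?_⟩
      rw [Bool.and_eq_true, decide_eq_true_eq]
      by_cases hw : wires (inp z) (val z) i = true
      · rw [if_pos hw] at hne
        exact ⟨hw, hne⟩
      · rw [if_neg hw] at hne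
        exact absurd rfl hne
  have hsumT : ∀ z, C.trueInputs (inp z) (val z) g = C.inputs g ↔
      ¬ ∃ i, ((!wires (inp z) (val z) i) && decide (C.wt g i ≠ 0)) = true := by
    intro z
    rw [trueInputs_eq, inputs_eq, Finset.sum_eq_sum_iff_of_le]
    · constructor
      · rintro h ⟨i, hi⟩
        rw [Bool.and_eq_true, decide_eq_true_eq, Bool.not_eq_true'] at hi
        have := h i (mem_univ i)
        rw [if_neg (by rw [hi.1]; exact Bool.false_ne_true)] at this
        exact hi.2 this.symm
      · intro h i _
        by_contra hne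
        refine h ⟨i, ?_⟩
        rw [Bool.and_eq_true, decide_eq_true_eq, Bool.not_eq_true']
        by_cases hw : wires (inp z) (val z) i = true
        · rw [if_pos hw] at hne
          exact absurd rfl hne
        · rw [if_neg hw] at hne
          exact ⟨by simpa using hw, Ne.symm hne⟩
    · intro i _
      by_cases hw : wires (inp z) (val z) i = true
      · rw [if_pos hw]
      · rw [if_neg hw]; exact Nat.zero_le _
  -- coefficients for OR
  obtain ⟨c, hc⟩ := exists_coeff (p := p) (Z := Finset U) ℓ
    (fun (i : V ⊕ Fin s) z => wires (inp z) (val z) i && decide (C.wt g i ≠ 0))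
  obtain ⟨c', hc'⟩ := exists_coeff (p := p) (Z := Finset U) ℓ
    (fun (i : V ⊕ Fin s) z => (!wires (inp z) (val z) i) && decide (C.wt g i ≠ 0))
  rw [hcardZ] at hc hc'
  have hdegOr : ∀ (D : ℕ) (c : Fin ℓ → V ⊕ Fin s → ZMod p) (y : V ⊕ Fin s → Finset U → ZMod p),
      (∀ i, C.wt g i ≠ 0 → y i ∈ lowDeg (ZMod p) U D) →
      (fun z => orPoly c fun i => if C.wt g i = 0 then 0 else y i z) ∈
        lowDeg (ZMod p) U ((p - 1) * ℓ * D) := by
    intro D c y hy
    have h := orPoly_mem (p := p) (D := D) (U := U) c
      (fun i => if C.wt g i = 0 then 0 else y i) (fun i _ => by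
        by_cases hi : C.wt g i = 0
        · rw [if_pos hi]; exact Submodule.zero_mem _
        · rw [if_neg hi]; exact hy i hi)
    convert h using 4 with z i
    by_cases hi : C.wt g i = 0
    · simp [hi]
    · simp [hi]
  cases hk : C.kind g with
  | nor =>
    refine ⟨fun y => 1 - orPoly c fun i => if C.wt g i = 0 then 0 else y i, _, hc, ?_, ?_⟩
    · intro z hz y hy
      simp only [mem_filter, mem_univ, true_and] at hz
      have h1 : (fun i => if C.wt g i = 0 then 0 else y i) =
          fun i => ind p (wires (inp z) (val z) i && decide (C.wt g i ≠ 0)) := by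
        funext i
        by_cases hi : C.wt g i = 0
        · simp [hi, ind]
        · simp [hi, hy i hi]
      beta_reduce
      rw [h1, orPoly_good c _ hz]
      have h2 : val z g = true ↔ ¬ ∃ i, (wires (inp z) (val z) i &&
          decide (C.wt g i ≠ 0)) = true := by
        rw [hfire z, ← hsum0]
        simp [Circuit.Fires, hk]
      by_cases h3 : ∃ i, (wires (inp z) (val z) i && decide (C.wt g i ≠ 0)) = true
      · rw [if_pos h3]
        have : val z g ≠ true := fun h => (h2.mp h) h3
        simp [ind, this]
      · rw [if_neg h3]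
        simp [ind, h2.mpr h3]
    · intro D y hy
      exact Submodule.sub_mem _ (one_mem_lowDeg _) (hdegOr D c y hy)
  | or =>
    refine ⟨fun y => orPoly c fun i => if C.wt g i = 0 then 0 else y i, _, hc, ?_, ?_⟩
    · intro z hz y hy
      simp only [mem_filter, mem_univ, true_and] at hz
      have h1 : (fun i => if C.wt g i = 0 then 0 else y i) =
          fun i => ind p (wires (inp z) (val z) i && decide (C.wt g i ≠ 0)) := by
        funext i
        by_cases hi : C.wt g i = 0
        · simp [hi, ind]
        · simp [hi, hy i hi]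
      beta_reduce
      rw [h1, orPoly_good c _ hz]
      have h2 : val z g = true ↔ ∃ i, (wires (inp z) (val z) i &&
          decide (C.wt g i ≠ 0)) = true := by
        rw [hfire z, ← not_iff_not, ← hsum0]
        simp [Circuit.Fires, hk]
      by_cases h3 : ∃ i, (wires (inp z) (val z) i && decide (C.wt g i ≠ 0)) = true
      · rw [if_pos h3]
        simp [ind, h2.mpr h3]
      · rw [if_neg h3]
        have : val z g ≠ true := fun h => h3 (h2.mp h)
        simp [ind, this]
    · intro D y hy
      exact hdegOr D c y hy
  | and =>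
    refine ⟨fun y => 1 - orPoly c' fun i => if C.wt g i = 0 then 0 else (1 - y i), _, hc', ?_, ?_⟩
    · intro z hz y hy
      simp only [mem_filter, mem_univ, true_and] at hz
      have h1 : (fun i => if C.wt g i = 0 then 0 else (1 - y i)) =
          fun i => ind p ((!wires (inp z) (val z) i) && decide (C.wt g i ≠ 0)) := by
        funext i
        by_cases hi : C.wt g i = 0
        · simp [hi, ind]
        · rw [if_neg hi, hy i hi]
          by_cases hw : wires (inp z) (val z) i = true
          · simp [ind, hw]
          · simp [ind, hw, hi]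
      beta_reduce
      rw [h1, orPoly_good c' _ hz]
      have h2 : val z g = true ↔ ¬ ∃ i, ((!wires (inp z) (val z) i) &&
          decide (C.wt g i ≠ 0)) = true := by
        rw [hfire z, ← hsumT]
        simp [Circuit.Fires, hk]
      by_cases h3 : ∃ i, ((!wires (inp z) (val z) i) && decide (C.wt g i ≠ 0)) = true
      · rw [if_pos h3]
        have : val z g ≠ true := fun h => (h2.mp h) h3
        simp [ind, this]
      · rw [if_neg h3]
        simp [ind, h2.mpr h3]
    · intro D y hy
      exact Submodule.sub_mem _ (one_mem_lowDeg _)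
        (hdegOr D c' (fun i => 1 - y i) fun i hi =>
          Submodule.sub_mem _ (one_mem_lowDeg _) (hy i hi))
  | mod A =>
    refine ⟨fun y => modPoly A (∑ i, (C.wt g i : ZMod p) * y i), ∅, by simp, ?_, ?_⟩
    · intro z _ y hy
      have h1 : (∑ i, (C.wt g i : ZMod p) * y i) =
          ((C.trueInputs (inp z) (val z) g : ℕ) : ZMod p) := by
        rw [trueInputs_eq]
        push_cast
        refine Finset.sum_congr rfl fun i _ => ?_
        by_cases hi : C.wt g i = 0
        · simp [hi]
        · rw [hy i hi]
          by_cases hw : wires (inp z) (val z) i = true <;> simp [ind, hw]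
      beta_reduce
      rw [h1, modPoly_eq, ZMod.val_natCast]
      have h2 : val z g = true ↔ A (C.trueInputs (inp z) (val z) g % p) = true := by
        rw [hfire z]
        simp [Circuit.Fires, hk]
      rw [Bool.eq_iff_iff.mpr h2]
    · intro D y hy
      have h := modPoly_mem (p := p) (U := U) (D := D) A
        (∑ i, (C.wt g i : ZMod p) • y i) (Submodule.sum_mem _ fun i _ => by
          by_cases hi : C.wt g i = 0
          · rw [hi, Nat.cast_zero, zero_smul]; exact Submodule.zero_mem _
          · exact Submodule.smul_mem _ _ (hy i hi))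
      refine lowDeg_mono ?_ (by simpa [Finset.sum_apply] using h)
      calc (p - 1) * D = (p - 1) * 1 * D := by ring
        _ ≤ (p - 1) * ℓ * D := Nat.mul_le_mul_right _ (Nat.mul_le_mul_left _ hℓ)

/-- **Razborov's approximation.** -/
theorem circuit_approx (C : Circuit V s) (inp : Finset U → V → Bool)
    (hin : ∀ v, (fun z => ind p (inp z v)) ∈ lowDeg (ZMod p) U 1)
    (ℓ : ℕ) (hℓ : 1 ≤ ℓ) :
    ∃ (P : Finset U → ZMod p) (E : Finset (Finset U)),
      P ∈ lowDeg (ZMod p) U (((p - 1) * ℓ) ^ (C.level C.out + 1)) ∧
      E.card * p ^ ℓ ≤ s * 2 ^ Fintype.card U ∧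
      ∀ z, z ∉ E → (C.Accepts p (inp z) → P z = 1) ∧ (¬ C.Accepts p (inp z) → P z = 0) := by
  classical
  choose val hval using fun z => C.exists_run p (inp z)
  choose G Bad hB hG hD using gate_approx (U := U) C inp val hval ℓ hℓ
  have ha : 1 ≤ (p - 1) * ℓ := by
    have := (Fact.out : p.Prime).two_le
    exact Nat.mul_pos (by omega) hℓ
  have key : ∀ k : ℕ, ∃ P : Fin s → Finset U → ZMod p, ∀ g, C.level g < k →
      P g ∈ lowDeg (ZMod p) U (((p - 1) * ℓ) ^ (C.level g + 1)) ∧
      ∀ z, (∀ h, z ∉ Bad h) → P g z = ind p (val z g) := by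
    intro k
    induction k with
    | zero => exact ⟨fun _ => 0, fun g hg => absurd hg (Nat.not_lt_zero _)⟩
    | succ k ih =>
      obtain ⟨P, hP⟩ := ih
      refine ⟨fun g => if C.level g < k then P g else
        fun z => G g (Sum.elim (fun v => ind p (inp z v)) fun h => P h z), ?_⟩
      intro g hg
      by_cases h : C.level g < k
      · simp only [if_pos h]
        exact hP g h
      · simp only [if_neg h]
        have hlev : ∀ h, C.gw g h ≠ 0 → C.level h < k := fun h' hh' => by
          have := C.level_lt g h' hh'
          omega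
        constructor
        · have h1 := hD g (((p - 1) * ℓ) ^ (C.level g))
            (Sum.elim (fun v z => ind p (inp z v)) P) (fun i hi => by
              cases i with
              | inl v => exact lowDeg_mono (Nat.one_le_pow _ _ ha) (hin v)
              | inr h' =>
                have hh' : C.gw g h' ≠ 0 := hi
                refine lowDeg_mono (Nat.pow_le_pow_right ha ?_) (hP h' (hlev h' hh')).1
                exact C.level_lt g h' hh')
          rw [pow_succ, mul_comm]
          convert h1 using 3 with z
          funext i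
          cases i <;> rfl
        · intro z hz
          refine hG g z (hz g) _ fun i hi => ?_
          cases i with
          | inl v => rfl
          | inr h' => exact (hP h' (hlev h' hi)).2 z hz
  obtain ⟨P, hP⟩ := key (C.level C.out + 1)
  refine ⟨P C.out, univ.biUnion Bad, (hP C.out (Nat.lt_succ_self _)).1, ?_, ?_⟩
  · calc (univ.biUnion Bad).card * p ^ ℓ ≤ (∑ g, (Bad g).card) * p ^ ℓ :=
        Nat.mul_le_mul_right _ Finset.card_biUnion_le
      _ = ∑ g, (Bad g).card * p ^ ℓ := Finset.sum_mul _ _ _
      _ ≤ ∑ _g : Fin s, 2 ^ Fintype.card U := Finset.sum_le_sum fun g _ => hB g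
      _ = s * 2 ^ Fintype.card U := by simp
  · intro z hz
    have hz' : ∀ h, z ∉ Bad h := fun h hh => hz (mem_biUnion.mpr ⟨h, mem_univ h, hh⟩)
    have h1 := (hP C.out (Nat.lt_succ_self _)).2 z hz'
    have h2 := Circuit.accepts_iff (hval z)
    constructor
    · intro h; rw [h1, h2.mp h]; rfl
    · intro h
      rw [h1]
      have : val z C.out ≠ true := fun h' => h (h2.mpr h')
      simp [ind, this]

end Pool.Agent.RS
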