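import Pool.Agent.RS.LowDeg
import Pool.Agent.RS.Circuit

/-!
# Approximation of circuits by functions of low degree over `ZMod p`
-/

set_option autoImplicit false

namespace Pool.Agent.RS

open Finset

variable {p : ℕ} [Fact p.Prime]

/-- Values of `0` or `1`. -/
def ind (p : ℕ) (b : Bool) : ZMod p := if b = true then 1 else 0

section counting

variable {ι : Type*} [Fintype ι] [DecidableEq ι]

lemma card_dot_eq_zero (v : ι → ZMod p) (j : ι) (hj : v j = 1) :
    ((univ : Finset (ι → ZMod p)).filter fun c => ∑ i, c i * v i = 0).card * p =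
      Fintype.card (ι → ZMod p) := by
  classical
  have h1 : ∀ a : ZMod p,
      ((univ : Finset (ι → ZMod p)).filter fun c => ∑ i, c i * v i = a).card =
      ((univ : Finset (ι → ZMod p)).filter fun c => ∑ i, c i * v i = 0).card := by
    intro a
    have hs : ∀ (c : ι → ZMod p) (b : ZMod p),
        ∑ i, (c + (Pi.single j b : ι → ZMod p)) i * v i = (∑ i, c i * v i) + b := by
      intro c b
      simp only [Pi.add_apply, add_mul, Finset.sum_add_distrib]
      congr 1
      rw [Finset.sum_eq_single j]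
      · simp [hj]
      · intro i _ hi; simp [Pi.single_eq_of_ne hi]
      · intro h; exact absurd (mem_univ j) h
    refine Finset.card_bij' (fun c _ => c + (Pi.single j (-a) : ι → ZMod p))
      (fun c _ => c + (Pi.single j a : ι → ZMod p)) ?_ ?_ ?_ ?_
    · intro c hc
      simp only [mem_filter, mem_univ, true_and] at hc ⊢
      rw [hs, hc]; ring
    · intro c hc
      simp only [mem_filter, mem_univ, true_and] at hc ⊢
      rw [hs, hc]; ring
    · intro c _
      funext i
      by_cases h : i = j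
      · subst h; simp
      · simp [Pi.single_eq_of_ne h]
    · intro c _
      funext i
      by_cases h : i = j
      · subst h; simp
      · simp [Pi.single_eq_of_ne h]
  have h2 : (univ : Finset (ι → ZMod p)).card =
      ∑ a : ZMod p, ((univ : Finset (ι → ZMod p)).filter fun c => ∑ i, c i * v i = a).card :=
    Finset.card_eq_sum_card_fiberwise fun c _ => mem_univ _
  rw [Finset.card_univ] at h2
  rw [h2, Finset.sum_congr rfl fun a _ => h1 a, Finset.sum_const, Finset.card_univ, ZMod.card,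
    smul_eq_mul, mul_comm]

lemma card_dots_eq_zero (ℓ : ℕ) (v : ι → ZMod p) (j : ι) (hj : v j = 1) :
    ((univ : Finset (Fin ℓ → ι → ZMod p)).filter fun c => ∀ r, ∑ i, c r i * v i = 0).card *
      p ^ ℓ = Fintype.card (Fin ℓ → ι → ZMod p) := by
  classical
  have h1 : ((univ : Finset (Fin ℓ → ι → ZMod p)).filter fun c => ∀ r, ∑ i, c r i * v i = 0) =
      Fintype.piFinset fun _ : Fin ℓ =>
        (univ : Finset (ι → ZMod p)).filter fun c => ∑ i, c i * v i = 0 := by
    ext c
    simp [Fintype.mem_piFinset]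
  rw [h1, Fintype.card_piFinset, Finset.prod_const, Finset.card_univ, Fintype.card_fin,
    ← mul_pow, card_dot_eq_zero v j hj]
  simp [Fintype.card_pi]

/-- Random linear combinations detect an OR, simultaneously for most points. -/
lemma exists_coeff {Z : Type*} [Fintype Z] (ℓ : ℕ) (Y : ι → Z → Bool) :
    ∃ c : Fin ℓ → ι → ZMod p,
      ((univ : Finset Z).filter fun z => (∃ i, Y i z = true) ∧
        ∀ r, ∑ i, c r i * ind p (Y i z) = 0).card * p ^ ℓ ≤ Fintype.card Z := by
  classical
  by_contra hcon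
  push Not at hcon
  have h1 : ∑ c : Fin ℓ → ι → ZMod p,
      ((univ : Finset Z).filter fun z => (∃ i, Y i z = true) ∧
        ∀ r, ∑ i, c r i * ind p (Y i z) = 0).card * p ^ ℓ ≤
      Fintype.card Z * Fintype.card (Fin ℓ → ι → ZMod p) := by
    have h2 : ∀ c : Fin ℓ → ι → ZMod p,
        ((univ : Finset Z).filter fun z => (∃ i, Y i z = true) ∧
          ∀ r, ∑ i, c r i * ind p (Y i z) = 0).card * p ^ ℓ =
        ∑ z : Z, (if (∃ i, Y i z = true) ∧ ∀ r, ∑ i, c r i * ind p (Y i z) = 0 then 1 else 0) *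
          p ^ ℓ := by
      intro c
      rw [Finset.card_filter, Finset.sum_mul]
    rw [Finset.sum_congr rfl fun c _ => h2 c, Finset.sum_comm]
    have h3 : ∀ z : Z, (∑ c : Fin ℓ → ι → ZMod p,
        (if (∃ i, Y i z = true) ∧ ∀ r, ∑ i, c r i * ind p (Y i z) = 0 then 1 else 0) *
          p ^ ℓ) ≤ Fintype.card (Fin ℓ → ι → ZMod p) := by
      intro z
      by_cases hz : ∃ i, Y i z = true
      · obtain ⟨j, hj⟩ := hz
        have h4 := card_dots_eq_zero (p := p) ℓ (fun i => ind p (Y i z)) j (by simp [ind, hj])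
        rw [← Finset.sum_mul, ← h4, Finset.card_filter]
        refine Nat.mul_le_mul_right _ (Finset.sum_le_sum fun c _ => ?_)
        by_cases hc : ∀ r, ∑ i, c r i * ind p (Y i z) = 0
        · rw [if_pos ⟨⟨j, hj⟩, hc⟩, if_pos hc]
        · rw [if_neg (fun h => hc h.2)]
          exact Nat.zero_le _
      · rw [Finset.sum_eq_zero]
        · exact Nat.zero_le _
        · intro c _
          rw [if_neg (fun h => hz h.1), zero_mul]
    refine (Finset.sum_le_sum fun z _ => h3 z).trans ?_
    rw [Finset.sum_const, Finset.card_univ, smul_eq_mul]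
  have h5 : ∑ _c : Fin ℓ → ι → ZMod p, Fintype.card Z <
      ∑ c : Fin ℓ → ι → ZMod p,
      ((univ : Finset Z).filter fun z => (∃ i, Y i z = true) ∧
        ∀ r, ∑ i, c r i * ind p (Y i z) = 0).card * p ^ ℓ :=
    Finset.sum_lt_sum_of_nonempty univ_nonempty fun c _ => hcon c
  rw [Finset.sum_const, Finset.card_univ, smul_eq_mul, mul_comm] at h5
  omega

end counting

/-- The polynomial that approximates OR. -/
def orPoly {ι : Type*} [Fintype ι] {ℓ : ℕ} (c : Fin ℓ → ι → ZMod p) (y : ι → ZMod p) : ZMod p :=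
  1 - ∏ r, (1 - (∑ i, c r i * y i) ^ (p - 1))

lemma one_sub_pow_eq (a : ZMod p) : 1 - a ^ (p - 1) = if a = 0 then 1 else 0 := by
  by_cases h : a = 0
  · rw [if_pos h, h, zero_pow, sub_zero]
    have := (Fact.out : p.Prime).two_le
    omega
  · rw [if_neg h, ZMod.pow_card_sub_one_eq_one h, sub_self]

lemma orPoly_eq {ι : Type*} [Fintype ι] {ℓ : ℕ} (c : Fin ℓ → ι → ZMod p) (y : ι → ZMod p) :
    orPoly c y = if ∀ r, ∑ i, c r i * y i = 0 then 0 else 1 := by
  unfold orPoly
  simp only [one_sub_pow_eq]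
  by_cases h : ∀ r, ∑ i, c r i * y i = 0
  · rw [if_pos h, Finset.prod_eq_one fun r _ => if_pos (h r), sub_self]
  · rw [if_neg h]
    push Not at h
    obtain ⟨r, hr⟩ := h
    rw [Finset.prod_eq_zero (mem_univ r) (if_neg hr), sub_zero]

lemma orPoly_good {ι : Type*} [Fintype ι] {ℓ : ℕ} (c : Fin ℓ → ι → ZMod p) (Y : ι → Bool)
    (h : ¬ ((∃ i, Y i = true) ∧ ∀ r, ∑ i, c r i * ind p (Y i) = 0)) :
    orPoly c (fun i => ind p (Y i)) = if ∃ i, Y i = true then 1 else 0 := by
  rw [orPoly_eq]
  by_cases hY : ∃ i, Y i = true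
  · rw [if_pos hY, if_neg fun h' => h ⟨hY, h'⟩]
  · rw [if_neg hY, if_pos]
    intro r
    refine Finset.sum_eq_zero fun i _ => ?_
    have : Y i = false := by
      by_contra h2
      exact hY ⟨i, by simpa using h2⟩
    simp [ind, this]

/-- The polynomial of an arbitrary function of the sum modulo `p`. -/
def modPoly (A : ℕ → Bool) (a : ZMod p) : ZMod p :=
  ∑ b : ZMod p, ind p (A b.val) * (1 - (a - b) ^ (p - 1))

lemma modPoly_eq (A : ℕ → Bool) (a : ZMod p) : modPoly A a = ind p (A a.val) := by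
  unfold modPoly
  simp only [one_sub_pow_eq, sub_eq_zero]
  rw [Finset.sum_eq_single a]
  · simp
  · intro b _ hb
    rw [if_neg (Ne.symm hb), mul_zero]
  · intro h; exact absurd (mem_univ a) h

section degree

variable {U : Type} [Fintype U] [DecidableEq U] {ι : Type*} [Fintype ι]

lemma orPoly_mem {D ℓ : ℕ} (c : Fin ℓ → ι → ZMod p) (y : ι → Finset U → ZMod p)
    (hy : ∀ i, (∃ r, c r i ≠ 0) → y i ∈ lowDeg (ZMod p) U D) :
    (fun z => orPoly c fun i => y i z) ∈ lowDeg (ZMod p) U ((p - 1) * ℓ * D) := by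
  have h1 : (fun z => orPoly c fun i => y i z) =
      1 - ∏ r, (1 - (∑ i, c r i • y i) ^ (p - 1)) := by
    funext z
    simp [orPoly, Finset.prod_apply, Finset.sum_apply]
  rw [h1]
  refine Submodule.sub_mem _ (one_mem_lowDeg _) ?_
  have h2 := prod_mem_lowDeg (F := ZMod p) (V := U) (D := (p - 1) * D) (univ : Finset (Fin ℓ))
    (fun r => 1 - (∑ i, c r i • y i) ^ (p - 1)) (fun r _ => by
      refine Submodule.sub_mem _ (one_mem_lowDeg _) (pow_mem_lowDeg ?_ _)
      refine Submodule.sum_mem _ fun i _ => ?_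
      by_cases h : c r i = 0
      · rw [h, zero_smul]; exact Submodule.zero_mem _
      · exact Submodule.smul_mem _ _ (hy i ⟨r, h⟩))
  rw [Finset.card_univ, Fintype.card_fin] at h2
  have h3 : ℓ * ((p - 1) * D) = (p - 1) * ℓ * D := by ring
  rwa [h3] at h2

lemma modPoly_mem {D : ℕ} (A : ℕ → Bool) (f : Finset U → ZMod p) (hf : f ∈ lowDeg (ZMod p) U D) :
    (fun z => modPoly A (f z)) ∈ lowDeg (ZMod p) U ((p - 1) * D) := by
  have h1 : (fun z => modPoly A (f z)) =
      ∑ b : ZMod p, ind p (A b.val) • (1 - (f - fun _ => b) ^ (p - 1)) := by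
    funext z
    simp [modPoly, Finset.sum_apply]
  rw [h1]
  refine Submodule.sum_mem _ fun b _ => Submodule.smul_mem _ _ ?_
  refine Submodule.sub_mem _ (one_mem_lowDeg _) (pow_mem_lowDeg ?_ _)
  exact Submodule.sub_mem _ hf (const_mem_lowDeg _ _)

end degree

end Pool.Agent.RS
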