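import Mathlib

/-!
# Disjoint blocks of variables whose patterns can be switched between a light and a heavy one
-/

set_option autoImplicit false
set_option linter.unusedSectionVars false

namespace Pool.Agent.RS

open Finset

section count

variable {ι : Type*} [Fintype ι] [DecidableEq ι]

/-- The pattern inside `b` is independent of the pattern outside. -/
lemma split_count (b : Finset ι) (Q : Finset ι → Prop) [DecidablePred Q]
    (hQ : ∀ x, Q x ↔ Q (x \ b)) (S : Finset (Finset ι)) (hS : ∀ u ∈ S, u ⊆ b) :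
    ((univ : Finset (Finset ι)).filter fun x => Q x ∧ x ∩ b ∈ S).card =
      ((univ : Finset (Finset ι)).filter fun r => Disjoint r b ∧ Q r).card * S.card := by
  classical
  rw [← Finset.card_product]
  refine Finset.card_bij' (fun x _ => (x \ b, x ∩ b)) (fun q _ => q.1 ∪ q.2) ?_ ?_ ?_ ?_
  · intro x hx
    simp only [mem_filter, mem_univ, true_and, mem_product] at hx ⊢
    exact ⟨⟨sdiff_disjoint, (hQ x).1 hx.1⟩, hx.2⟩
  · rintro ⟨r, u⟩ hq
    simp only [mem_filter, mem_univ, true_and, mem_product] at hq ⊢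
    obtain ⟨⟨h1, h2⟩, h3⟩ := hq
    have hu := hS u h3
    have e1 : (r ∪ u) \ b = r := by
      rw [union_sdiff_distrib, sdiff_eq_empty_iff_subset.2 hu, union_empty,
        Finset.sdiff_eq_self_iff_disjoint]
      exact h1
    have e2 : (r ∪ u) ∩ b = u := by
      rw [union_inter_distrib_right, inter_eq_left.2 hu, disjoint_iff_inter_eq_empty.1 h1,
        empty_union]
    refine ⟨?_, ?_⟩
    · rw [hQ, e1]; exact h2
    · rw [e2]; exact h3
  · intro x _
    exact sdiff_union_inter x b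
  · rintro ⟨r, u⟩ hq
    simp only [mem_filter, mem_univ, true_and, mem_product] at hq
    obtain ⟨⟨h1, h2⟩, h3⟩ := hq
    have hu := hS u h3
    have e1 : (r ∪ u) \ b = r := by
      rw [union_sdiff_distrib, sdiff_eq_empty_iff_subset.2 hu, union_empty,
        Finset.sdiff_eq_self_iff_disjoint]
      exact h1
    have e2 : (r ∪ u) ∩ b = u := by
      rw [union_inter_distrib_right, inter_eq_left.2 hu, disjoint_iff_inter_eq_empty.1 h1,
        empty_union]
    simp only [e1, e2]

lemma avoid_count {β : Type*} [DecidableEq β] (blk : β → Finset ι)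
    (disj : ∀ B B', B ≠ B' → Disjoint (blk B) (blk B')) (S : β → Finset (Finset ι))
    (hS : ∀ B, ∀ u ∈ S B, u ⊆ blk B) (a : ℕ)
    (hcard : ∀ B, 2 ^ (blk B).card ≤ a * (S B).card) (𝒢 : Finset β) :
    ((univ : Finset (Finset ι)).filter fun x => ∀ B ∈ 𝒢, x ∩ blk B ∉ S B).card * a ^ 𝒢.card ≤
      (a - 1) ^ 𝒢.card * 2 ^ Fintype.card ι := by
  classical
  induction 𝒢 using Finset.induction_on with
  | empty => simp
  | insert B 𝒢 hB ih =>
    let Q : Finset ι → Prop := fun x => ∀ B' ∈ 𝒢, x ∩ blk B' ∉ S B'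
    have hQ : ∀ x, Q x ↔ Q (x \ blk B) := by
      intro x
      have : ∀ B' ∈ 𝒢, (x \ blk B) ∩ blk B' = x ∩ blk B' := by
        intro B' hB'
        have hne : B ≠ B' := by rintro rfl; exact hB hB'
        ext i
        simp only [mem_inter, mem_sdiff]
        constructor
        · rintro ⟨⟨h1, _⟩, h3⟩; exact ⟨h1, h3⟩
        · rintro ⟨h1, h3⟩
          exact ⟨⟨h1, fun h => (Finset.disjoint_left.1 (disj B B' hne)) h h3⟩, h3⟩
      constructor
      · intro h B' hB'; rw [this B' hB']; exact h B' hB'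
      · intro h B' hB'; rw [← this B' hB']; exact h B' hB'
    set R := ((univ : Finset (Finset ι)).filter fun r => Disjoint r (blk B) ∧ Q r).card with hR
    have h1 : ((univ : Finset (Finset ι)).filter fun x => Q x).card = R * 2 ^ (blk B).card := by
      have := split_count (blk B) Q hQ (blk B).powerset fun u hu => mem_powerset.1 hu
      rw [card_powerset] at this
      rw [← this]
      congr 1
      ext x
      simp
    have h2 : ((univ : Finset (Finset ι)).filter fun x => ∀ B' ∈ insert B 𝒢,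
        x ∩ blk B' ∉ S B').card = R * ((blk B).powerset \ S B).card := by
      have := split_count (blk B) Q hQ ((blk B).powerset \ S B)
        fun u hu => mem_powerset.1 (mem_sdiff.1 hu).1
      rw [← this]
      congr 1
      ext x
      simp only [mem_filter, mem_univ, true_and, mem_insert, forall_eq_or_imp, mem_sdiff,
        mem_powerset, inter_subset_right, Q]
      tauto
    have h3 : ((blk B).powerset \ S B).card = 2 ^ (blk B).card - (S B).card := by
      rw [card_sdiff_of_subset, card_powerset]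
      intro u hu
      exact mem_powerset.2 (hS B u hu)
    have h4 : a * ((blk B).powerset \ S B).card ≤ (a - 1) * 2 ^ (blk B).card := by
      rw [h3, Nat.mul_sub, Nat.sub_mul, one_mul]
      have := hcard B
      omega
    rw [h2, card_insert_of_notMem hB, pow_succ, pow_succ]
    have ih' : R * 2 ^ (blk B).card * a ^ 𝒢.card ≤ (a - 1) ^ 𝒢.card * 2 ^ Fintype.card ι := by
      rw [← h1]; exact ih
    calc R * ((blk B).powerset \ S B).card * (a ^ 𝒢.card * a)
        = R * (a * ((blk B).powerset \ S B).card) * a ^ 𝒢.card := by ring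
      _ ≤ R * ((a - 1) * 2 ^ (blk B).card) * a ^ 𝒢.card :=
          Nat.mul_le_mul_right _ (Nat.mul_le_mul_left _ h4)
      _ = (a - 1) * (R * 2 ^ (blk B).card * a ^ 𝒢.card) := by ring
      _ ≤ (a - 1) * ((a - 1) ^ 𝒢.card * 2 ^ Fintype.card ι) := Nat.mul_le_mul_left _ ih'
      _ = _ := by ring

lemma two_mul_pred_pow_le (a : ℕ) (ha : 1 ≤ a) : 2 * (a - 1) ^ a ≤ a ^ a := by
  obtain ⟨c, rfl⟩ : ∃ c, a = c + 1 := ⟨a - 1, by omega⟩
  rw [Nat.add_sub_cancel]
  have h1 : c ^ (c + 1) + (c + 1) * c ^ c ≤ (c + 1) ^ (c + 1) := by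
    have := add_pow c 1 (c + 1)
    rw [this]
    rw [Finset.sum_range_succ, Finset.sum_range_succ]
    simp only [one_pow, mul_one, Nat.choose_self, Nat.sub_self]
    have h2 : (c + 1).choose c = c + 1 := by
      rw [Nat.choose_succ_self_right]
    rw [h2]
    have : 0 ≤ ∑ x ∈ Finset.range c, c ^ x * ((c + 1).choose x) := Nat.zero_le _
    nlinarith
  have h3 : c ^ (c + 1) ≤ (c + 1) * c ^ c := by
    rw [pow_succ, mul_comm]
    exact Nat.mul_le_mul_right _ (Nat.le_succ c)
  omega

/-- Few sets avoid all the patterns in `a * t` blocks. -/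
lemma avoid_bound {β : Type*} [DecidableEq β] (blk : β → Finset ι)
    (disj : ∀ B B', B ≠ B' → Disjoint (blk B) (blk B')) (S : β → Finset (Finset ι))
    (hS : ∀ B, ∀ u ∈ S B, u ⊆ blk B) (a : ℕ) (ha : 1 ≤ a)
    (hcard : ∀ B, 2 ^ (blk B).card ≤ a * (S B).card) (𝒢 : Finset β) (t : ℕ)
    (h𝒢 : 𝒢.card = a * t) :
    ((univ : Finset (Finset ι)).filter fun x => ∀ B ∈ 𝒢, x ∩ blk B ∉ S B).card * 2 ^ t ≤
      2 ^ Fintype.card ι := by
  have h1 := avoid_count blk disj S hS a hcard 𝒢
  rw [h𝒢] at h1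
  set N := ((univ : Finset (Finset ι)).filter fun x => ∀ B ∈ 𝒢, x ∩ blk B ∉ S B).card
  have h2 : 2 ^ t * (a - 1) ^ (a * t) ≤ a ^ (a * t) := by
    rw [pow_mul, pow_mul, ← mul_pow]
    exact Nat.pow_le_pow_left (two_mul_pred_pow_le a ha) t
  have hpos : 0 < a ^ (a * t) := pow_pos ha _
  refine Nat.le_of_mul_le_mul_right ?_ hpos
  calc N * 2 ^ t * a ^ (a * t) = 2 ^ t * (N * a ^ (a * t)) := by ring
    _ ≤ 2 ^ t * ((a - 1) ^ (a * t) * 2 ^ Fintype.card ι) := Nat.mul_le_mul_left _ h1
    _ = (2 ^ t * (a - 1) ^ (a * t)) * 2 ^ Fintype.card ι := by ring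
    _ ≤ a ^ (a * t) * 2 ^ Fintype.card ι := Nat.mul_le_mul_right _ h2
    _ = _ := by ring

end count

/-- A system of disjoint blocks of variables. In each block some patterns are light, some are
heavy, and there is a bijection between them that preserves the sum of `g`. -/
structure Sys (ι β G : Type) [DecidableEq ι] [AddCommGroup G] (g : ι → G) where
  blk : β → Finset ι
  disj : ∀ B B', B ≠ B' → Disjoint (blk B) (blk B')
  w : ℕ
  w' : ℕ
  hw : w < w'
  light : β → Finset (Finset ι)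
  heavy : β → Finset (Finset ι)
  up : β → Finset ι → Finset ι
  dn : β → Finset ι → Finset ι
  light_sub : ∀ B, ∀ u ∈ light B, u ⊆ blk B
  heavy_sub : ∀ B, ∀ u ∈ heavy B, u ⊆ blk B
  light_card : ∀ B, ∀ u ∈ light B, u.card = w
  heavy_card : ∀ B, ∀ u ∈ heavy B, u.card = w'
  up_mem : ∀ B, ∀ u ∈ light B, up B u ∈ heavy B
  dn_mem : ∀ B, ∀ u ∈ heavy B, dn B u ∈ light B
  up_dn : ∀ B, ∀ u ∈ heavy B, up B (dn B u) = u
  dn_up : ∀ B, ∀ u ∈ light B, dn B (up B u) = u
  up_sum : ∀ B, ∀ u ∈ light B, ∑ i ∈ up B u, g i = ∑ i ∈ u, g i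

namespace Sys

variable {ι β G : Type} [Fintype ι] [DecidableEq ι] [Fintype β] [DecidableEq β]
  [AddCommGroup G] {g : ι → G} (W : Sys ι β G g)

/-- The union of all blocks. -/
def all : Finset ι := univ.biUnion W.blk

/-- Blocks where the pattern is light. -/
def Lt (x : Finset ι) : Finset β := univ.filter fun B => x ∩ W.blk B ∈ W.light B

/-- Blocks where the pattern is heavy. -/
def Hv (x : Finset ι) : Finset β := univ.filter fun B => x ∩ W.blk B ∈ W.heavy B

/-- Replacement of all patterns. -/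
def repl (x : Finset ι) (f : β → Finset ι) : Finset ι := (x \ W.all) ∪ univ.biUnion f

variable {W}

omit [Fintype ι] in
lemma mem_Lt {x : Finset ι} {B : β} : B ∈ W.Lt x ↔ x ∩ W.blk B ∈ W.light B := by
  simp [Lt]

omit [Fintype ι] in
lemma mem_Hv {x : Finset ι} {B : β} : B ∈ W.Hv x ↔ x ∩ W.blk B ∈ W.heavy B := by
  simp [Hv]

omit [Fintype ι] [DecidableEq β] in
lemma not_light_heavy {B : β} {u : Finset ι} (h1 : u ∈ W.light B) (h2 : u ∈ W.heavy B) :
    False := by
  have := W.light_card B u h1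
  have := W.heavy_card B u h2
  have := W.hw
  omega

omit [Fintype ι] in
lemma disj_Lt_Hv (x : Finset ι) : Disjoint (W.Lt x) (W.Hv x) := by
  rw [Finset.disjoint_left]
  intro B h1 h2
  exact not_light_heavy (mem_Lt.1 h1) (mem_Hv.1 h2)

omit [Fintype ι] in
lemma repl_inter (x : Finset ι) {f : β → Finset ι} (hf : ∀ B, f B ⊆ W.blk B) (B : β) :
    W.repl x f ∩ W.blk B = f B := by
  ext i
  simp only [repl, all, mem_inter, mem_union, mem_sdiff, mem_biUnion, mem_univ, true_and]
  constructor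
  · rintro ⟨⟨_, h⟩ | ⟨B', h⟩, hB⟩
    · exact absurd ⟨B, hB⟩ h
    · by_cases hBB : B' = B
      · subst hBB; exact h
      · exact absurd hB ((Finset.disjoint_left.1 (W.disj B' B hBB)) (hf B' h))
  · intro h
    exact ⟨Or.inr ⟨B, h⟩, hf B h⟩

omit [Fintype ι] in
lemma repl_sdiff (x : Finset ι) {f : β → Finset ι} (hf : ∀ B, f B ⊆ W.blk B) :
    W.repl x f \ W.all = x \ W.all := by
  ext i
  simp only [repl, all, mem_union, mem_sdiff, mem_biUnion, mem_univ, true_and]
  constructor
  · rintro ⟨⟨h1, h2⟩ | ⟨B, h⟩, h'⟩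
    · exact ⟨h1, h2⟩
    · exact absurd ⟨B, hf B h⟩ h'
  · rintro ⟨h1, h2⟩
    exact ⟨Or.inl ⟨h1, h2⟩, h2⟩

omit [Fintype ι] in
lemma ext_patterns {x y : Finset ι} (h1 : x \ W.all = y \ W.all)
    (h2 : ∀ B, x ∩ W.blk B = y ∩ W.blk B) : x = y := by
  ext i
  by_cases hi : i ∈ W.all
  · obtain ⟨B, _, hB⟩ := mem_biUnion.1 hi
    have := Finset.ext_iff.1 (h2 B) i
    simp only [mem_inter, hB, and_true] at this
    exact this
  · have := Finset.ext_iff.1 h1 i
    simp only [mem_sdiff, hi, not_false_eq_true, and_true] at this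
    exact this

omit [Fintype ι] in
lemma sum_patterns {A : Type*} [AddCommMonoid A] (f : ι → A) (x : Finset ι) :
    ∑ i ∈ x, f i = ∑ i ∈ x \ W.all, f i + ∑ B, ∑ i ∈ x ∩ W.blk B, f i := by
  have h1 : x ∩ W.all = univ.biUnion fun B => x ∩ W.blk B := by
    ext i
    simp [all]
  rw [← Finset.sum_biUnion, ← h1]
  · rw [add_comm]
    exact (Finset.sum_inter_add_sum_sdiff x W.all f).symm
  · intro B _ B' _ hne
    change Disjoint (x ∩ W.blk B) (x ∩ W.blk B')
    exact (W.disj B B' hne).mono inter_subset_right inter_subset_right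

omit [Fintype ι] in
lemma card_patterns (x : Finset ι) :
    x.card = (x \ W.all).card + ∑ B, (x ∩ W.blk B).card := by
  have := sum_patterns (W := W) (fun _ => 1) x
  simpa using this

variable (W)

/-- Light patterns in the blocks of `Z` are made heavy. -/
def raise (y : Finset ι) (Z : Finset β) : Finset ι :=
  W.repl y fun B => if B ∈ Z then W.up B (y ∩ W.blk B) else y ∩ W.blk B

/-- All heavy patterns are made light. -/
def lower (x : Finset ι) : Finset ι :=
  W.repl x fun B => if B ∈ W.Hv x then W.dn B (x ∩ W.blk B) else x ∩ W.blk B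

variable {W}

omit [Fintype ι] in
lemma raise_inter {y : Finset ι} {Z : Finset β} (hZ : Z ⊆ W.Lt y) (B : β) :
    W.raise y Z ∩ W.blk B = if B ∈ Z then W.up B (y ∩ W.blk B) else y ∩ W.blk B := by
  refine repl_inter y (fun B => ?_) B
  by_cases hB : B ∈ Z
  · rw [if_pos hB]
    exact W.heavy_sub B _ (W.up_mem B _ (mem_Lt.1 (hZ hB)))
  · rw [if_neg hB]
    exact inter_subset_right

omit [Fintype ι] in
lemma raise_sdiff {y : Finset ι} {Z : Finset β} (hZ : Z ⊆ W.Lt y) :
    W.raise y Z \ W.all = y \ W.all := by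
  refine repl_sdiff y (fun B => ?_)
  by_cases hB : B ∈ Z
  · rw [if_pos hB]
    exact W.heavy_sub B _ (W.up_mem B _ (mem_Lt.1 (hZ hB)))
  · rw [if_neg hB]
    exact inter_subset_right

omit [Fintype ι] in
lemma lower_inter (x : Finset ι) (B : β) :
    W.lower x ∩ W.blk B = if B ∈ W.Hv x then W.dn B (x ∩ W.blk B) else x ∩ W.blk B := by
  refine repl_inter x (fun B => ?_) B
  by_cases hB : B ∈ W.Hv x
  · rw [if_pos hB]
    exact W.light_sub B _ (W.dn_mem B _ (mem_Hv.1 hB))
  · rw [if_neg hB]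
    exact inter_subset_right

omit [Fintype ι] in
lemma lower_sdiff (x : Finset ι) : W.lower x \ W.all = x \ W.all := by
  refine repl_sdiff x (fun B => ?_)
  by_cases hB : B ∈ W.Hv x
  · rw [if_pos hB]
    exact W.light_sub B _ (W.dn_mem B _ (mem_Hv.1 hB))
  · rw [if_neg hB]
    exact inter_subset_right

omit [Fintype ι] in
lemma Hv_lower (x : Finset ι) : W.Hv (W.lower x) = ∅ := by
  rw [Finset.eq_empty_iff_forall_notMem]
  intro B hB
  rw [mem_Hv, lower_inter] at hB
  by_cases h : B ∈ W.Hv x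
  · rw [if_pos h] at hB
    exact not_light_heavy (W.dn_mem B _ (mem_Hv.1 h)) hB
  · rw [if_neg h] at hB
    exact h (mem_Hv.2 hB)

omit [Fintype ι] in
lemma Lt_lower (x : Finset ι) : W.Lt (W.lower x) = W.Lt x ∪ W.Hv x := by
  ext B
  rw [mem_Lt, lower_inter, mem_union]
  by_cases h : B ∈ W.Hv x
  · rw [if_pos h]
    exact ⟨fun _ => Or.inr h, fun _ => W.dn_mem B _ (mem_Hv.1 h)⟩
  · rw [if_neg h, mem_Lt]
    exact ⟨fun h' => Or.inl h', fun h' => h'.resolve_right h⟩

omit [Fintype ι] in
lemma raise_lower (x : Finset ι) : W.raise (W.lower x) (W.Hv x) = x := by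
  have hZ : W.Hv x ⊆ W.Lt (W.lower x) := by
    rw [Lt_lower]; exact subset_union_right
  refine ext_patterns (W := W) ?_ ?_
  · rw [raise_sdiff hZ, lower_sdiff]
  · intro B
    rw [raise_inter hZ, lower_inter]
    by_cases h : B ∈ W.Hv x
    · rw [if_pos h, if_pos h, W.up_dn B _ (mem_Hv.1 h)]
    · rw [if_neg h, if_neg h]

omit [Fintype ι] in
lemma Hv_raise {y : Finset ι} {Z : Finset β} (hy : W.Hv y = ∅) (hZ : Z ⊆ W.Lt y) :
    W.Hv (W.raise y Z) = Z := by
  ext B
  rw [mem_Hv, raise_inter hZ]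
  by_cases h : B ∈ Z
  · rw [if_pos h]
    exact ⟨fun _ => h, fun _ => W.up_mem B _ (mem_Lt.1 (hZ h))⟩
  · rw [if_neg h]
    refine ⟨fun h' => ?_, fun h' => absurd h' h⟩
    have := mem_Hv.2 h'
    rw [hy] at this
    exact absurd this (Finset.notMem_empty _)

omit [Fintype ι] in
lemma lower_raise {y : Finset ι} {Z : Finset β} (hy : W.Hv y = ∅) (hZ : Z ⊆ W.Lt y) :
    W.lower (W.raise y Z) = y := by
  refine ext_patterns (W := W) ?_ ?_
  · rw [lower_sdiff, raise_sdiff hZ]
  · intro B
    rw [lower_inter, Hv_raise hy hZ, raise_inter hZ]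
    by_cases h : B ∈ Z
    · rw [if_pos h, if_pos h, W.dn_up B _ (mem_Lt.1 (hZ h))]
    · rw [if_neg h, if_neg h]

omit [Fintype ι] in
lemma card_raise {y : Finset ι} {Z : Finset β} (hZ : Z ⊆ W.Lt y) :
    (W.raise y Z).card = y.card + Z.card * (W.w' - W.w) := by
  rw [card_patterns (W := W) (W.raise y Z), card_patterns (W := W) y, raise_sdiff hZ,
    add_assoc]
  congr 1
  have h1 : ∀ B, (W.raise y Z ∩ W.blk B).card =
      (y ∩ W.blk B).card + if B ∈ Z then (W.w' - W.w) else 0 := by
    intro B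
    rw [raise_inter hZ]
    by_cases h : B ∈ Z
    · rw [if_pos h, if_pos h, W.heavy_card B _ (W.up_mem B _ (mem_Lt.1 (hZ h))),
        W.light_card B _ (mem_Lt.1 (hZ h))]
      have := W.hw
      omega
    · rw [if_neg h, if_neg h, add_zero]
  rw [Finset.sum_congr rfl fun B _ => h1 B, Finset.sum_add_distrib]
  congr 1
  rw [Finset.sum_ite_mem, univ_inter, Finset.sum_const, smul_eq_mul]

omit [Fintype ι] in
lemma sum_raise {y : Finset ι} {Z : Finset β} (hZ : Z ⊆ W.Lt y) :
    ∑ i ∈ W.raise y Z, g i = ∑ i ∈ y, g i := by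
  rw [sum_patterns (W := W) g (W.raise y Z), sum_patterns (W := W) g y, raise_sdiff hZ]
  congr 1
  refine Finset.sum_congr rfl fun B _ => ?_
  rw [raise_inter hZ]
  by_cases h : B ∈ Z
  · rw [if_pos h, W.up_sum B _ (mem_Lt.1 (hZ h))]
  · rw [if_neg h]

/-- Averaging over the fibres of `lower`. -/
theorem exists_fibre (k M σ : ℕ) (T : Finset (Finset ι)) (hT : ∀ x ∈ T, x.card = k)
    (hH : ∀ x ∈ T, M ≤ (W.Hv x).card) (hL : ∀ x ∈ T, M ≤ (W.Lt x).card)
    (hcard : 2 ^ Fintype.card ι ≤ σ * T.card) :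
    ∃ (y : Finset ι) (h : ℕ), W.Hv y = ∅ ∧ M ≤ h ∧ M + h ≤ (W.Lt y).card ∧
      y.card + h * (W.w' - W.w) = k ∧
      (W.Lt y).card.choose h ≤
        σ * (((W.Lt y).powersetCard h).filter fun Z => W.raise y Z ∈ T).card := by
  classical
  by_contra hcon
  push Not at hcon
  have hwpos : 0 < W.w' - W.w := by have := W.hw; omega
  have hkey : ∀ x ∈ T, (W.lower x).card + (W.Hv x).card * (W.w' - W.w) = k := by
    intro x hx
    have hZ : W.Hv x ⊆ W.Lt (W.lower x) := by
      rw [Lt_lower]; exact subset_union_right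
    have := card_raise hZ
    rw [raise_lower, hT x hx] at this
    exact this.symm
  let Y := T.image W.lower
  have hpick : ∀ y ∈ Y, ∃ x ∈ T, W.lower x = y := fun y hy => mem_image.1 hy
  choose! px hpx1 hpx2 using hpick
  let hh : Finset ι → ℕ := fun y => (W.Hv (px y)).card
  have hfib : ∀ y ∈ Y, ∀ x ∈ T, W.lower x = y → (W.Hv x).card = hh y := by
    intro y hy x hx hxy
    have h1 := hkey x hx
    have h2 := hkey (px y) (hpx1 y hy)
    rw [hpx2 y hy] at h2
    rw [hxy] at h1
    exact Nat.eq_of_mul_eq_mul_right hwpos (by change _ = (W.Hv (px y)).card * _; omega)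
  have hstep : ∀ y ∈ Y, σ * (T.filter fun x => W.lower x = y).card <
      (W.Lt y).card.choose (hh y) := by
    intro y hy
    have e1 : W.Hv y = ∅ := by rw [← hpx2 y hy]; exact Hv_lower _
    have e2 : M ≤ hh y := hH _ (hpx1 y hy)
    have e3 : M + hh y ≤ (W.Lt y).card := by
      have : W.Lt y = W.Lt (px y) ∪ W.Hv (px y) := by
        rw [← Lt_lower, hpx2 y hy]
      rw [this, card_union_of_disjoint (disj_Lt_Hv _)]
      exact Nat.add_le_add_right (hL _ (hpx1 y hy)) _
    have e4 : y.card + hh y * (W.w' - W.w) = k := by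
      have := hkey (px y) (hpx1 y hy)
      rw [hpx2 y hy] at this
      exact this
    refine lt_of_le_of_lt ?_ (hcon y (hh y) e1 e2 e3 e4)
    refine Nat.mul_le_mul_left _ ?_
    refine Finset.card_le_card_of_injOn W.Hv ?_ ?_
    · intro x hx
      rw [Finset.mem_coe, mem_filter] at hx
      rw [Finset.mem_coe, mem_filter, mem_powersetCard]
      refine ⟨⟨?_, hfib y hy x hx.1 hx.2⟩, ?_⟩
      · rw [← hx.2, Lt_lower]; exact subset_union_right
      · rw [← hx.2, raise_lower]; exact hx.1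
    · intro x hx x' hx' hxx
      rw [Finset.mem_coe, mem_filter] at hx hx'
      rw [← raise_lower (W := W) x, ← raise_lower (W := W) x', hx.2, hx'.2, hxx]
  have hTcard : T.card = ∑ y ∈ Y, (T.filter fun x => W.lower x = y).card :=
    Finset.card_eq_sum_card_image W.lower T
  have hYne : Y.Nonempty := by
    rw [Finset.nonempty_iff_ne_empty]
    intro h0
    rw [h0, Finset.sum_empty] at hTcard
    rw [hTcard, mul_zero] at hcard
    exact absurd hcard (not_le.2 (by positivity))
  have hlt : σ * T.card < ∑ y ∈ Y, (W.Lt y).card.choose (hh y) := by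
    rw [hTcard, Finset.mul_sum]
    exact Finset.sum_lt_sum_of_nonempty hYne hstep
  have hle : ∑ y ∈ Y, (W.Lt y).card.choose (hh y) ≤ 2 ^ Fintype.card ι := by
    have h1 : ∑ y ∈ Y, (W.Lt y).card.choose (hh y) =
        (Y.sigma fun y => (W.Lt y).powersetCard (hh y)).card := by
      rw [Finset.card_sigma]
      exact Finset.sum_congr rfl fun y _ => (Finset.card_powersetCard _ _).symm
    have h2 : 2 ^ Fintype.card ι = (univ : Finset (Finset ι)).card := by
      rw [Finset.card_univ, Fintype.card_finset]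
    rw [h1, h2]
    refine Finset.card_le_card_of_injOn (fun q => W.raise q.1 q.2) (fun _ _ => mem_univ _) ?_
    rintro ⟨y, Z⟩ hq ⟨y', Z'⟩ hq' hqq
    rw [Finset.mem_coe, mem_sigma, mem_powersetCard] at hq hq'
    simp only at hq hq' hqq
    have e1 : W.Hv y = ∅ := by rw [← hpx2 y hq.1]; exact Hv_lower _
    have e2 : W.Hv y' = ∅ := by rw [← hpx2 y' hq'.1]; exact Hv_lower _
    have e3 : y = y' := by
      rw [← lower_raise e1 hq.2.1, ← lower_raise e2 hq'.2.1, hqq]
    have e4 : Z = Z' := by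
      rw [← Hv_raise e1 hq.2.1, ← Hv_raise e2 hq'.2.1, hqq]
    subst e3; subst e4; rfl
  omega

end Sys

end Pool.Agent.RS
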