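import Pool.Agent.RS.MkSys
import Pool.Agent.RS.Center
import Pool.Agent.RS.Recenter

/-!
# Fibres of linear systems modulo `m` and circuits with counting gates modulo `p`
-/

set_option autoImplicit false
set_option linter.unusedSectionVars false

namespace Pool.Agent.RS

open Finset

section

variable {ι β G : Type} [Fintype ι] [DecidableEq ι] [Fintype β] [DecidableEq β]
  [AddCommGroup G] {g : ι → G} {W : Sys ι β G g}

/-- Membership in `raise y Z` is constant or depends on the membership of one block in `Z`. -/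
lemma Sys.mem_raise (y : Finset ι) (i : ι) :
    (∃ q : Prop, ∀ Z, Z ⊆ W.Lt y → (i ∈ W.raise y Z ↔ q)) ∨
      ∃ (B : β) (q q' : Prop), ∀ Z, Z ⊆ W.Lt y →
        (i ∈ W.raise y Z ↔ if B ∈ Z then q else q') := by
  classical
  by_cases hi : i ∈ W.all
  · right
    obtain ⟨B, _, hB⟩ := mem_biUnion.1 hi
    refine ⟨B, i ∈ W.up B (y ∩ W.blk B), i ∈ y, fun Z hZ => ?_⟩
    have h1 := Finset.ext_iff.1 (Sys.raise_inter hZ B) i
    rw [mem_inter] at h1
    by_cases hBZ : B ∈ Z
    · rw [if_pos hBZ] at h1 ⊢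
      rw [← h1]
      exact ⟨fun h => ⟨h, hB⟩, fun h => h.1⟩
    · rw [if_neg hBZ, mem_inter] at h1
      rw [if_neg hBZ]
      constructor
      · intro h; exact (h1.1 ⟨h, hB⟩).1
      · intro h; exact (h1.2 ⟨h, hB⟩).1
  · left
    refine ⟨i ∈ y, fun Z hZ => ?_⟩
    have h1 := Finset.ext_iff.1 (Sys.raise_sdiff hZ) i
    rw [mem_sdiff, mem_sdiff] at h1
    constructor
    · intro h; exact (h1.1 ⟨h, hi⟩).1
    · intro h; exact (h1.2 ⟨h, hi⟩).1

end

variable {p : ℕ} [Fact p.Prime] {V ι G : Type} [Fintype V] [DecidableEq V] [Fintype ι]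
  [DecidableEq ι] [AddCommGroup G] [Fintype G] [DecidableEq G] {s : ℕ}

theorem core_aux (C : Circuit V s) (inp : Finset ι → V → Bool)
    (hin : ∀ v, (∃ b, ∀ z, inp z v = b) ∨ ∃ i, ∀ z, inp z v = decide (i ∈ z))
    (m : ℕ) (hm : 0 < m) (g : ι → G) (hg : ∀ i, m • g i = 0) (c : G) (k lam d : ℕ)
    (hrej : ∀ z, ∑ i ∈ z, g i = c → C.Accepts p (inp z) → k ≤ z.card)
    (T : Finset (Finset ι))
    (hT : ∀ z ∈ T, z.card = k ∧ ∑ i ∈ z, g i = c ∧ C.Accepts p (inp z))
    (hcard : 2 ^ Fintype.card ι ≤ 2 ^ lam * T.card) (hG : Fintype.card G ≤ 2 ^ lam)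
    (hs : s * (Fintype.card ι + 1) ^ 2 ≤ 2 ^ lam) (hd : C.level C.out + 1 ≤ d)
    (b a t M : ℕ) (hb : b = m ^ 2 * (lam + 4)) (ha : a = 3 * (b + 1) ^ 2) (ht : t = 2 * lam + 3)
    (hM : M = 2 * (((p - 1) * (2 * lam + 5)) ^ d + 1) ^ 2) :
    Fintype.card ι < (b + 1) ^ 2 * (M * (a * t)) * b := by
  classical
  by_contra hcon
  push Not at hcon
  have hs1 : 1 ≤ s := by have := C.out.2; omega
  have hb1 : 1 ≤ b := by
    rw [hb]; exact Nat.mul_pos (by positivity) (by omega)
  have ha1 : 1 ≤ a := by rw [ha]; have : 0 < (b + 1) ^ 2 := by positivity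
                         omega
  have hM1 : 1 ≤ M := by
    rw [hM]; have : 0 < (((p - 1) * (2 * lam + 5)) ^ d + 1) ^ 2 := by positivity
    omega
  have hMn : M ≤ Fintype.card ι := by
    refine le_trans ?_ hcon
    calc M = 1 * (M * (1 * 1)) * 1 := by ring
      _ ≤ (b + 1) ^ 2 * (M * (a * t)) * b := by
        refine Nat.mul_le_mul (Nat.mul_le_mul (Nat.one_le_pow _ _ (by omega)) ?_) hb1
        exact Nat.mul_le_mul_left _ (Nat.mul_le_mul ha1 (by omega))
  have hMM : M ^ 2 * s ≤ 2 ^ lam := by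
    refine le_trans ?_ hs
    rw [mul_comm]
    exact Nat.mul_le_mul_left _ (Nat.pow_le_pow_left (by omega) 2)
  have hMlam : M ≤ 2 ^ lam := by
    refine le_trans ?_ hMM
    calc M = M * 1 * 1 := by ring
      _ ≤ M * M * s := Nat.mul_le_mul (Nat.mul_le_mul_left _ hM1) hs1
      _ = M ^ 2 * s := by ring
  -- the block system
  obtain ⟨W, hW1, hW2, hW3⟩ := exists_sys (β := Fin M × Fin (a * t)) m (lam + 4) hm g hg
    (by rw [pow_add]; exact Nat.mul_le_mul hG (by norm_num))
    (by rw [Fintype.card_prod, Fintype.card_fin, Fintype.card_fin, ← hb]; exact hcon)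
  rw [← hb] at hW1 hW2 hW3
  rw [← ha] at hW2 hW3
  -- the bad set
  let row : Fin M → Finset (Fin M × Fin (a * t)) := fun j => ({j} : Finset (Fin M)) ×ˢ univ
  have hrow : ∀ j, (row j).card = a * t := by
    intro j
    simp only [row, card_product, card_singleton, card_univ, Fintype.card_fin, one_mul]
  let B1 : Fin M → Finset (Finset ι) := fun j =>
    univ.filter fun x => ∀ B ∈ row j, x ∩ W.blk B ∉ W.heavy B
  let B2 : Fin M → Finset (Finset ι) := fun j =>
    univ.filter fun x => ∀ B ∈ row j, x ∩ W.blk B ∉ W.light B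
  have hB1 : ∀ j, (B1 j).card * 2 ^ t ≤ 2 ^ Fintype.card ι := by
    intro j
    have h := avoid_bound W.blk W.disj W.heavy W.heavy_sub a ha1
      (fun B => by rw [hW1 B]; exact hW3 B) (row j) t (hrow j)
    convert h
  have hB2 : ∀ j, (B2 j).card * 2 ^ t ≤ 2 ^ Fintype.card ι := by
    intro j
    have h := avoid_bound W.blk W.disj W.light W.light_sub a ha1
      (fun B => by rw [hW1 B]; exact hW2 B) (row j) t (hrow j)
    convert h
  let Bad : Finset (Finset ι) := univ.biUnion B1 ∪ univ.biUnion B2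
  have hBad1 : Bad.card * 2 ^ t ≤ 2 * M * 2 ^ Fintype.card ι := by
    have h1 : Bad.card ≤ ∑ j, (B1 j).card + ∑ j, (B2 j).card :=
      (card_union_le _ _).trans (Nat.add_le_add card_biUnion_le card_biUnion_le)
    have h2 : ∀ f : Fin M → Finset (Finset ι), (∀ j, (f j).card * 2 ^ t ≤ 2 ^ Fintype.card ι) →
        (∑ j, (f j).card) * 2 ^ t ≤ M * 2 ^ Fintype.card ι := by
      intro f hf
      rw [Finset.sum_mul]
      refine (Finset.sum_le_sum fun j _ => hf j).trans ?_
      rw [Finset.sum_const, card_univ, Fintype.card_fin, smul_eq_mul]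
    calc Bad.card * 2 ^ t ≤ (∑ j, (B1 j).card + ∑ j, (B2 j).card) * 2 ^ t :=
          Nat.mul_le_mul_right _ h1
      _ = (∑ j, (B1 j).card) * 2 ^ t + (∑ j, (B2 j).card) * 2 ^ t := add_mul _ _ _
      _ ≤ M * 2 ^ Fintype.card ι + M * 2 ^ Fintype.card ι := Nat.add_le_add (h2 B1 hB1) (h2 B2 hB2)
      _ = _ := by ring
  have hBad2 : 4 * Bad.card ≤ T.card := by
    have h1 : Bad.card * 2 ^ (lam + 2) ≤ 2 ^ Fintype.card ι := by
      refine Nat.le_of_mul_le_mul_right ?_ (show 0 < 2 ^ (lam + 1) by positivity)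
      calc Bad.card * 2 ^ (lam + 2) * 2 ^ (lam + 1) = Bad.card * 2 ^ t := by
            rw [mul_assoc, ← pow_add, ht]; congr 2; ring
        _ ≤ 2 * M * 2 ^ Fintype.card ι := hBad1
        _ ≤ 2 * 2 ^ lam * 2 ^ Fintype.card ι :=
            Nat.mul_le_mul_right _ (Nat.mul_le_mul_left _ hMlam)
        _ = 2 ^ Fintype.card ι * 2 ^ (lam + 1) := by rw [pow_succ]; ring
    refine Nat.le_of_mul_le_mul_left ?_ (show 0 < 2 ^ lam by positivity)
    calc 2 ^ lam * (4 * Bad.card) = Bad.card * 2 ^ (lam + 2) := by rw [pow_add]; ring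
      _ ≤ 2 ^ Fintype.card ι := h1
      _ ≤ _ := hcard
  set T' := T \ Bad with hT'
  have hT'c : 2 ^ Fintype.card ι ≤ 2 ^ (lam + 1) * T'.card := by
    have h1 : T.card - Bad.card ≤ T'.card := le_card_sdiff _ _
    have h2 : T.card ≤ 2 * T'.card := by omega
    calc 2 ^ Fintype.card ι ≤ 2 ^ lam * T.card := hcard
      _ ≤ 2 ^ lam * (2 * T'.card) := Nat.mul_le_mul_left _ h2
      _ = _ := by rw [pow_succ]; ring
  have hT'T : ∀ x ∈ T', x ∈ T := fun x hx => (mem_sdiff.1 hx).1
  have hHv : ∀ x ∈ T', M ≤ (W.Hv x).card := by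
    intro x hx
    have hx' := (mem_sdiff.1 hx).2
    have h1 : ∀ j : Fin M, ∃ B ∈ row j, x ∩ W.blk B ∈ W.heavy B := by
      intro j
      by_contra h
      push Not at h
      exact hx' (mem_union_left _ (mem_biUnion.2 ⟨j, mem_univ _, mem_filter.2 ⟨mem_univ _, h⟩⟩))
    choose B hB1 hB2 using h1
    have h2 : (univ.image B).card = M := by
      rw [card_image_of_injective, card_univ, Fintype.card_fin]
      intro j j' hjj
      have e1 := (mem_product.1 (hB1 j)).1
      have e2 := (mem_product.1 (hB1 j')).1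
      rw [mem_singleton] at e1 e2
      rw [← e1, ← e2, hjj]
    refine h2.symm.le.trans (card_le_card fun u hu => ?_)
    obtain ⟨j, _, rfl⟩ := mem_image.1 hu
    exact Sys.mem_Hv.2 (hB2 j)
  have hLt : ∀ x ∈ T', M ≤ (W.Lt x).card := by
    intro x hx
    have hx' := (mem_sdiff.1 hx).2
    have h1 : ∀ j : Fin M, ∃ B ∈ row j, x ∩ W.blk B ∈ W.light B := by
      intro j
      by_contra h
      push Not at h
      exact hx' (mem_union_right _ (mem_biUnion.2 ⟨j, mem_univ _, mem_filter.2 ⟨mem_univ _, h⟩⟩))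
    choose B hB1 hB2 using h1
    have h2 : (univ.image B).card = M := by
      rw [card_image_of_injective, card_univ, Fintype.card_fin]
      intro j j' hjj
      have e1 := (mem_product.1 (hB1 j)).1
      have e2 := (mem_product.1 (hB1 j')).1
      rw [mem_singleton] at e1 e2
      rw [← e1, ← e2, hjj]
    refine h2.symm.le.trans (card_le_card fun u hu => ?_)
    obtain ⟨j, _, rfl⟩ := mem_image.1 hu
    exact Sys.mem_Lt.2 (hB2 j)
  obtain ⟨y, h, hy, hMh, hMhL, hyk, hch⟩ := Sys.exists_fibre (W := W) k M (2 ^ (lam + 1)) T'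
    (fun x hx => (hT x (hT'T x hx)).1) hHv hLt hT'c
  -- the fibre as a cube
  let J := {B // B ∈ W.Lt y}
  let eJ : J ↪ Fin M × Fin (a * t) := Function.Embedding.subtype _
  have hJc : Fintype.card J = (W.Lt y).card := Fintype.card_coe _
  have hmap : ∀ z : Finset J, z.map eJ ⊆ W.Lt y := by
    intro z B hB
    obtain ⟨u, _, rfl⟩ := mem_map.1 hB
    exact u.2
  let T₀ : Finset (Finset J) := univ.filter fun z => z.card = h ∧ W.raise y (z.map eJ) ∈ T'
  have hT₀c : (((W.Lt y).powersetCard h).filter fun Z => W.raise y Z ∈ T').card ≤ T₀.card := by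
    have h1 : (((W.Lt y).powersetCard h).filter fun Z => W.raise y Z ∈ T') ⊆
        T₀.image fun z => z.map eJ := by
      intro Z hZ
      rw [mem_filter, mem_powersetCard] at hZ
      have e1 : (Z.subtype (· ∈ W.Lt y)).map eJ = Z := by
        refine Finset.subtype_map_of_mem fun B hB => hZ.1.1 hB
      rw [mem_image]
      refine ⟨Z.subtype (· ∈ W.Lt y), ?_, e1⟩
      rw [mem_filter]
      refine ⟨mem_univ _, ?_, ?_⟩
      · rw [← card_map eJ, e1]; exact hZ.1.2
      · rw [e1]; exact hZ.2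
    exact (card_le_card h1).trans card_image_le
  obtain ⟨A, Y, hAY, hA, hY, hAc⟩ := recenter (J := J) h M hMh (by rw [hJc]; exact hMhL) T₀
    (fun z hz => (mem_filter.1 hz).2.1) (2 ^ (lam + 1)) (by
      rw [hJc]
      exact hch.trans (Nat.mul_le_mul_left _ hT₀c))
  let U := {B // B ∈ A}
  let eU : U ↪ J := Function.Embedding.subtype _
  have hUc : Fintype.card U = 2 * M := by rw [Fintype.card_coe]; exact hA
  let Z : Finset U → Finset (Fin M × Fin (a * t)) := fun z => (Y ∪ z.map eU).map eJ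
  have hZsub : ∀ z, Z z ⊆ W.Lt y := fun z => hmap _
  have hdisjYz : ∀ z : Finset U, Disjoint Y (z.map eU) := by
    intro z
    refine hAY.symm.mono_right ?_
    intro B hB
    obtain ⟨u, _, rfl⟩ := mem_map.1 hB
    exact u.2
  have hZcard : ∀ z, (Z z).card = h - M + z.card := by
    intro z
    rw [card_map, card_union_of_disjoint (hdisjYz z), hY, card_map]
  let S : Finset (Finset U) := univ.filter fun z => z.card = M ∧ Y ∪ z.map eU ∈ T₀
  have hSc : ((A.powersetCard M).filter fun z => Y ∪ z ∈ T₀).card ≤ S.card := by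
    have h1 : ((A.powersetCard M).filter fun z => Y ∪ z ∈ T₀) ⊆ S.image fun z => z.map eU := by
      intro z hz
      rw [mem_filter, mem_powersetCard] at hz
      have e1 : (z.subtype (· ∈ A)).map eU = z := by
        refine Finset.subtype_map_of_mem fun B hB => hz.1.1 hB
      rw [mem_image]
      refine ⟨z.subtype (· ∈ A), ?_, e1⟩
      rw [mem_filter]
      refine ⟨mem_univ _, ?_, ?_⟩
      · rw [← card_map eU, e1]; exact hz.1.2
      · rw [e1]; exact hz.2
    exact (card_le_card h1).trans card_image_le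
  have hSc' : (2 * M).choose M ≤ 2 ^ (lam + 1) * S.card :=
    hAc.trans (Nat.mul_le_mul_left _ hSc)
  have hST : ∀ z ∈ S, W.raise y (Z z) ∈ T := by
    intro z hz
    have h1 := (mem_filter.1 hz).2.2
    exact hT'T _ (mem_filter.1 h1).2.2
  -- the value of the forms
  have hyc : ∑ i ∈ y, g i = c := by
    have hSne : S.Nonempty := by
      rw [Finset.nonempty_iff_ne_empty]
      intro h0
      rw [h0, card_empty, mul_zero] at hSc'
      have : 0 < (2 * M).choose M := Nat.choose_pos (by omega)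
      omega
    obtain ⟨z, hz⟩ := hSne
    rw [← Sys.sum_raise (W := W) (hZsub z)]
    exact (hT _ (hST z hz)).2.1
  have hwpos : 0 < W.w' - W.w := by have := W.hw; omega
  -- the literals
  have hmemZ : ∀ B : Fin M × Fin (a * t), (∃ q : Prop, ∀ z, (B ∈ Z z ↔ q)) ∨
      ∃ u : U, ∀ z, (B ∈ Z z ↔ u ∈ z) := by
    intro B
    have hBZ : ∀ z, B ∈ Z z ↔ ∃ h : B ∈ W.Lt y, (⟨B, h⟩ : J) ∈ Y ∪ z.map eU := by
      intro z
      constructor
      · intro hB
        obtain ⟨u, hu, rfl⟩ := mem_map.1 hB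
        exact ⟨u.2, hu⟩
      · rintro ⟨h1, h2⟩
        exact mem_map.2 ⟨⟨B, h1⟩, h2, rfl⟩
    by_cases hBJ : B ∈ W.Lt y
    · by_cases hBA : (⟨B, hBJ⟩ : J) ∈ A
      · right
        refine ⟨⟨⟨B, hBJ⟩, hBA⟩, fun z => ?_⟩
        rw [hBZ]
        constructor
        · rintro ⟨_, h2⟩
          rcases mem_union.1 h2 with h3 | h3
          · exact absurd hBA ((Finset.disjoint_right.1 hAY) h3)
          · obtain ⟨u, hu, huB⟩ := mem_map.1 h3
            have : u = ⟨⟨B, hBJ⟩, hBA⟩ := Subtype.ext huB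
            rwa [← this]
        · intro h1
          exact ⟨hBJ, mem_union_right _ (mem_map.2 ⟨_, h1, rfl⟩)⟩
      · left
        refine ⟨(⟨B, hBJ⟩ : J) ∈ Y, fun z => ?_⟩
        rw [hBZ]
        constructor
        · rintro ⟨_, h2⟩
          rcases mem_union.1 h2 with h3 | h3
          · exact h3
          · obtain ⟨u, hu, huB⟩ := mem_map.1 h3
            exfalso
            apply hBA
            rw [← huB]
            exact u.2
        · intro h1
          exact ⟨hBJ, mem_union_left _ h1⟩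
    · left
      refine ⟨False, fun z => ?_⟩
      rw [hBZ]
      exact ⟨fun ⟨h1, _⟩ => hBJ h1, fun h => h.elim⟩
  have hmem : ∀ i : ι, (∃ q : Prop, ∀ z, (i ∈ W.raise y (Z z) ↔ q)) ∨
      ∃ (u : U) (q q' : Prop), ∀ z, (i ∈ W.raise y (Z z) ↔ if u ∈ z then q else q') := by
    intro i
    rcases Sys.mem_raise (W := W) y i with ⟨q, hq⟩ | ⟨B, q, q', hq⟩
    · exact Or.inl ⟨q, fun z => hq _ (hZsub z)⟩
    · rcases hmemZ B with ⟨r, hr⟩ | ⟨u, hu⟩
      · left
        refine ⟨if r then q else q', fun z => ?_⟩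
        rw [hq _ (hZsub z)]
        by_cases h1 : r
        · rw [if_pos h1, if_pos ((hr z).2 h1)]
        · rw [if_neg h1, if_neg fun h2 => h1 ((hr z).1 h2)]
      · right
        refine ⟨u, q, q', fun z => ?_⟩
        rw [hq _ (hZsub z)]
        by_cases h1 : u ∈ z
        · rw [if_pos h1, if_pos ((hu z).2 h1)]
        · rw [if_neg h1, if_neg fun h2 => h1 ((hu z).1 h2)]
  have hin' : ∀ v, (fun z => ind p (inp (W.raise y (Z z)) v)) ∈ lowDeg (ZMod p) U 1 := by
    intro v
    rcases hin v with ⟨b, hb⟩ | ⟨i, hi⟩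
    · have : (fun z => ind p (inp (W.raise y (Z z)) v)) = fun _ => ind p b := by
        funext z; rw [hb]
      rw [this]
      exact const_mem_lowDeg 1 _
    · rcases hmem i with ⟨q, hq⟩ | ⟨u, q, q', hq⟩
      · have : (fun z => ind p (inp (W.raise y (Z z)) v)) = fun _ => ind p (decide q) := by
          funext z; rw [hi]; congr 1; exact decide_eq_decide.2 (hq z)
        rw [this]
        exact const_mem_lowDeg 1 _
      · have : (fun z => ind p (inp (W.raise y (Z z)) v)) =
            (fun _ => ind p (decide q)) * (fun z => if u ∈ z then (1 : ZMod p) else 0) +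
              (fun _ => ind p (decide q')) * (fun z => if u ∈ z then (0 : ZMod p) else 1) := by
          funext z
          rw [hi]
          simp only [Pi.add_apply, Pi.mul_apply]
          by_cases h1 : u ∈ z
          · have e := hq z
            rw [if_pos h1] at e
            rw [if_pos h1, if_pos h1, mul_one, mul_zero, add_zero, decide_eq_decide.2 e]
          · have e := hq z
            rw [if_neg h1] at e
            rw [if_neg h1, if_neg h1, mul_one, mul_zero, zero_add, decide_eq_decide.2 e]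
        rw [this]
        refine Submodule.add_mem _ ?_ ?_
        · have := mul_mem_lowDeg (const_mem_lowDeg (F := ZMod p) (V := U) 0 (ind p (decide q)))
            (mem_lit (F := ZMod p) u)
          simpa using this
        · have := mul_mem_lowDeg (const_mem_lowDeg (F := ZMod p) (V := U) 0 (ind p (decide q')))
            (notMem_lit (F := ZMod p) u)
          simpa using this
  have hbound := center_bound (p := p) C (fun z => inp (W.raise y (Z z))) hin' (M := M)
    (σ := 2 ^ (lam + 1)) (ℓ := 2 * lam + 5) hUc (by omega) (by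
      intro z hz
      have h1 := hrej (W.raise y (Z z)) (by rw [Sys.sum_raise (hZsub z)]; exact hyc) hz
      rw [Sys.card_raise (hZsub z), ← hyk, hZcard z] at h1
      have h2 : h * (W.w' - W.w) ≤ (h - M + z.card) * (W.w' - W.w) := by omega
      have h3 := Nat.le_of_mul_le_mul_right h2 hwpos
      omega) S (fun z hz => (hT _ (hST z hz)).2.2) hSc' (by
      rw [hM]
      refine Nat.mul_le_mul_left _ (Nat.pow_le_pow_left ?_ 2)
      refine Nat.add_le_add_right (Nat.pow_le_pow_right ?_ hd) 1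
      have := (Fact.out : p.Prime).two_le
      exact Nat.mul_pos (by omega) (by omega))
  have h1 : 8 * M ^ 2 * 2 ^ (lam + 1) * s ≤ 16 * (2 ^ lam * 2 ^ lam) := by
    calc 8 * M ^ 2 * 2 ^ (lam + 1) * s = 16 * (2 ^ lam * (M ^ 2 * s)) := by rw [pow_succ]; ring
      _ ≤ 16 * (2 ^ lam * 2 ^ lam) := Nat.mul_le_mul_left _ (Nat.mul_le_mul_left _ hMM)
  have h2 : 32 * (2 ^ lam * 2 ^ lam) ≤ p ^ (2 * lam + 5) := by
    calc 32 * (2 ^ lam * 2 ^ lam) = 2 ^ (2 * lam + 5) := by rw [pow_add, two_mul, pow_add]; ring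
      _ ≤ p ^ (2 * lam + 5) := Nat.pow_le_pow_left (Fact.out : p.Prime).two_le _
  have h3 : 0 < 2 ^ lam * 2 ^ lam := by positivity
  omega

lemma core_num (p m lam d : ℕ) (hp : 2 ≤ p) (hm : 0 < m) (hlam : 1 ≤ lam) (b a t M : ℕ)
    (hb : b = m ^ 2 * (lam + 4)) (ha : a = 3 * (b + 1) ^ 2) (ht : t = 2 * lam + 3)
    (hM : M = 2 * (((p - 1) * (2 * lam + 5)) ^ d + 1) ^ 2) :
    (b + 1) ^ 2 * (M * (a * t)) * b ≤
      777600 * m ^ 10 * (7 * (p - 1)) ^ (2 * d) * lam ^ (2 * d + 6) := by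
  have hm2 : 1 ≤ m ^ 2 := Nat.one_le_pow _ _ hm
  have h1 : b ≤ 5 * (m ^ 2 * lam) := by
    rw [hb]
    calc m ^ 2 * (lam + 4) ≤ m ^ 2 * (5 * lam) := Nat.mul_le_mul_left _ (by omega)
      _ = _ := by ring
  have h2 : b + 1 ≤ 6 * (m ^ 2 * lam) := by
    have : 1 ≤ m ^ 2 * lam := Nat.mul_pos hm2 hlam
    omega
  have h3 : a ≤ 3 * (6 * (m ^ 2 * lam)) ^ 2 := by
    rw [ha]; exact Nat.mul_le_mul_left _ (Nat.pow_le_pow_left h2 2)
  have h4 : t ≤ 5 * lam := by omega
  have h5 : M ≤ 2 * (2 * (7 * (p - 1) * lam) ^ d) ^ 2 := by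
    rw [hM]
    refine Nat.mul_le_mul_left _ (Nat.pow_le_pow_left ?_ 2)
    have e1 : ((p - 1) * (2 * lam + 5)) ^ d ≤ (7 * (p - 1) * lam) ^ d := by
      refine Nat.pow_le_pow_left ?_ d
      calc (p - 1) * (2 * lam + 5) ≤ (p - 1) * (7 * lam) := Nat.mul_le_mul_left _ (by omega)
        _ = _ := by ring
    have e2 : 1 ≤ (7 * (p - 1) * lam) ^ d :=
      Nat.one_le_pow _ _ (Nat.mul_pos (Nat.mul_pos (by norm_num) (by omega)) hlam)
    omega
  calc (b + 1) ^ 2 * (M * (a * t)) * b ≤
      (6 * (m ^ 2 * lam)) ^ 2 * ((2 * (2 * (7 * (p - 1) * lam) ^ d) ^ 2) *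
        ((3 * (6 * (m ^ 2 * lam)) ^ 2) * (5 * lam))) * (5 * (m ^ 2 * lam)) := by
        gcongr
    _ = _ := by
        rw [mul_pow (7 * (p - 1)) lam d, pow_add lam (2 * d) 6]
        have e3 : lam ^ (2 * d) = (lam ^ d) ^ 2 := by rw [← pow_mul, Nat.mul_comm d 2]
        have e4 : (7 * (p - 1)) ^ (2 * d) = ((7 * (p - 1)) ^ d) ^ 2 := by
          rw [← pow_mul, Nat.mul_comm d 2]
        rw [e3, e4]
        ring

/-- **Core lemma.** Let a circuit of depth at most `d` with `AND`, `OR`, `NOR` gates and counting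
gates modulo `p` reject all points with less than `k` ones of a fibre of a homomorphism to a
finite group of exponent `m`, and accept many points with `k` ones of this fibre. Then it has
many gates or the number of variables is small. -/
theorem core (C : Circuit V s) (inp : Finset ι → V → Bool)
    (hin : ∀ v, (∃ b, ∀ z, inp z v = b) ∨ ∃ i, ∀ z, inp z v = decide (i ∈ z))
    (m : ℕ) (hm : 0 < m) (g : ι → G) (hg : ∀ i, m • g i = 0) (c : G) (k lam d : ℕ)
    (hrej : ∀ z, ∑ i ∈ z, g i = c → C.Accepts p (inp z) → k ≤ z.card)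
    (T : Finset (Finset ι))
    (hT : ∀ z ∈ T, z.card = k ∧ ∑ i ∈ z, g i = c ∧ C.Accepts p (inp z))
    (hcard : 2 ^ Fintype.card ι ≤ 2 ^ lam * T.card) (hG : Fintype.card G ≤ 2 ^ lam)
    (hs : s * (Fintype.card ι + 1) ^ 2 ≤ 2 ^ lam) (hd : C.level C.out + 1 ≤ d)
    (hlam : 1 ≤ lam) :
    Fintype.card ι < 777600 * m ^ 10 * (7 * (p - 1)) ^ (2 * d) * lam ^ (2 * d + 6) :=
  lt_of_lt_of_le (core_aux C inp hin m hm g hg c k lam d hrej T hT hcard hG hs hd _ _ _ _ rfl rfl
    rfl rfl) (core_num p m lam d (Fact.out : p.Prime).two_le hm hlam _ _ _ _ rfl rfl rfl rfl)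

/-- The core lemma without an explicit constant. -/
theorem exists_core (p m d : ℕ) [Fact p.Prime] (hm : 0 < m) :
    ∃ K : ℕ, ∀ (V ι G : Type) [Fintype V] [DecidableEq V] [Fintype ι] [DecidableEq ι]
      [AddCommGroup G] [Fintype G] [DecidableEq G] (s : ℕ) (C : Circuit V s)
      (inp : Finset ι → V → Bool) (_ : ∀ v, (∃ b, ∀ z, inp z v = b) ∨
        ∃ i, ∀ z, inp z v = decide (i ∈ z))
      (g : ι → G) (_ : ∀ i, m • g i = 0) (c : G) (k lam : ℕ)
      (_ : ∀ z, ∑ i ∈ z, g i = c → C.Accepts p (inp z) → k ≤ z.card)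
      (T : Finset (Finset ι))
      (_ : ∀ z ∈ T, z.card = k ∧ ∑ i ∈ z, g i = c ∧ C.Accepts p (inp z))
      (_ : 2 ^ Fintype.card ι ≤ 2 ^ lam * T.card) (_ : Fintype.card G ≤ 2 ^ lam)
      (_ : s * (Fintype.card ι + 1) ^ 2 ≤ 2 ^ lam) (_ : C.level C.out + 1 ≤ d)
      (_ : 1 ≤ lam), Fintype.card ι < K * lam ^ (2 * d + 6) :=
  ⟨777600 * m ^ 10 * (7 * (p - 1)) ^ (2 * d), by
    intro V ι G _ _ _ _ _ _ _ s C inp hin g hg c k lam hrej T hT hcard hG hs hd hlam
    exact core C inp hin m hm g hg c k lam d hrej T hT hcard hG hs hd hlam⟩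

end Pool.Agent.RS
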