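import Pool.Agent.RS.Core
import Pool.Agent.Helper21.LinSys.Joint

/-!
# The core lemma in the form used by the reduction
-/

set_option autoImplicit false

namespace Pool.Agent.RS

open Pool.Agent.Helper21.LinSys

theorem coreStatement (p m d : ℕ) [Fact p.Prime] (hm : 0 < m) :
    CoreStatement p m d (777600 * m ^ 10 * (7 * (p - 1)) ^ (2 * d)) := by
  intro I V _ _ _ _ s C inp hin G _ _ _ g hg c k hrej T hT lam h1 h2 h3 h4 h5
  exact core C inp hin m hm g hg c k lam d hrej T hT h1 h2 h3 h4 h5

end Pool.Agent.RS
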