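import Pool.Agent.RS.Collide

/-!
# Many disjoint pairs of subsets with equal sum and two fixed different sizes
-/

set_option autoImplicit false

namespace Pool.Agent.RS

open Finset

lemma exists_matching {α : Type*} [DecidableEq α] (A A' : Finset α) :
    ∃ M : Finset (α × α), (∀ q ∈ M, q.1 ∈ A ∧ q.2 ∈ A') ∧
      (∀ q ∈ M, ∀ r ∈ M, q.1 = r.1 → q = r) ∧ (∀ q ∈ M, ∀ r ∈ M, q.2 = r.2 → q = r) ∧
      M.card = min A.card A'.card := by
  obtain ⟨B, hB, hBc⟩ := Finset.exists_subset_card_eq (min_le_left A.card A'.card)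
  obtain ⟨B', hB', hBc'⟩ := Finset.exists_subset_card_eq (min_le_right A.card A'.card)
  let e : B ≃ B' := Finset.equivOfCardEq (by rw [hBc, hBc'])
  refine ⟨B.attach.image fun u => (u.1, (e u).1), ?_, ?_, ?_, ?_⟩
  · intro q hq
    obtain ⟨u, _, rfl⟩ := mem_image.mp hq
    exact ⟨hB u.2, hB' (e u).2⟩
  · intro q hq r hr h
    obtain ⟨u, _, rfl⟩ := mem_image.mp hq
    obtain ⟨v, _, rfl⟩ := mem_image.mp hr
    have : u = v := Subtype.ext h
    rw [this]
  · intro q hq r hr h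
    obtain ⟨u, _, rfl⟩ := mem_image.mp hq
    obtain ⟨v, _, rfl⟩ := mem_image.mp hr
    have : e u = e v := Subtype.ext h
    rw [e.injective this]
  · rw [card_image_of_injOn]
    · rw [card_attach, hBc]
    · intro u _ v _ h
      exact Subtype.ext (Prod.mk.inj h).1

variable {ι G : Type*} [DecidableEq ι] [AddCommGroup G] [Fintype G] [DecidableEq G]

theorem exists_pairs (m L : ℕ) (hm : 0 < m) (g : ι → G) (hg : ∀ i, m • g i = 0) (s : Finset ι)
    (hs : s.card = m ^ 2 * L) (hL : Fintype.card G * 16 ≤ 2 ^ L) :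
    ∃ (w w' : ℕ) (M : Finset (Finset ι × Finset ι)), w < w' ∧ w' ≤ s.card ∧
      (∀ q ∈ M, q.1 ⊆ s ∧ q.2 ⊆ s ∧ q.1.card = w ∧ q.2.card = w' ∧
        ∑ i ∈ q.1, g i = ∑ i ∈ q.2, g i) ∧
      (∀ q ∈ M, ∀ r ∈ M, q.1 = r.1 → q = r) ∧ (∀ q ∈ M, ∀ r ∈ M, q.2 = r.2 → q = r) ∧
      2 ^ s.card ≤ 3 * (s.card + 1) ^ 2 * M.card := by
  classical
  set b := s.card with hb
  let fib : G → Finset (Finset ι) := fun γ => s.powerset.filter fun u => ∑ i ∈ u, g i = γ
  let A : G → ℕ → Finset (Finset ι) := fun γ w => (fib γ).filter fun u => u.card = w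
  have hcardle : ∀ γ, ∀ u ∈ fib γ, u.card ∈ range (b + 1) := by
    intro γ u hu
    rw [mem_range, Nat.lt_succ_iff]
    exact card_le_card (mem_powerset.mp (mem_filter.mp hu).1)
  have hfib : ∀ γ, (fib γ).card = ∑ w ∈ range (b + 1), (A γ w).card := fun γ =>
    Finset.card_eq_sum_card_fiberwise (hcardle γ)
  -- the most popular size
  have hmax : ∀ γ, ∃ w ∈ range (b + 1), ∀ w' ∈ range (b + 1), (A γ w').card ≤ (A γ w).card :=
    fun γ => Finset.exists_max_image _ _ ⟨0, by simp⟩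
  choose w0 hw0 hw0max using hmax
  let r : G → ℕ := fun γ => ∑ w ∈ (range (b + 1)).erase (w0 γ), (A γ w).card
  have hfr : ∀ γ, (fib γ).card = (A γ (w0 γ)).card + r γ := by
    intro γ
    rw [hfib γ, ← Finset.add_sum_erase _ _ (hw0 γ)]
  -- the norm of the generating function
  have hnorm : ∀ γ, ((A γ (w0 γ)).card : ℝ) - r γ ≤ ‖(gen m g s) γ‖ := by
    intro γ
    have h1 : (gen m g s) γ = ∑ u ∈ A γ (w0 γ), om m ^ u.card +
        ∑ u ∈ (fib γ).filter (fun u => ¬ u.card = w0 γ), om m ^ u.card := by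
      change ∑ u ∈ fib γ, om m ^ u.card = _
      rw [Finset.sum_filter_add_sum_filter_not]
    have h2 : ‖∑ u ∈ A γ (w0 γ), om m ^ u.card‖ = (A γ (w0 γ)).card := by
      have : ∑ u ∈ A γ (w0 γ), om m ^ u.card = ((A γ (w0 γ)).card : ℂ) * om m ^ (w0 γ) := by
        rw [Finset.sum_congr rfl fun u hu => by rw [(mem_filter.mp hu).2], Finset.sum_const,
          nsmul_eq_mul]
      rw [this, norm_mul, norm_pow, norm_om, one_pow, mul_one]
      simp
    have h3 : ‖∑ u ∈ (fib γ).filter (fun u => ¬ u.card = w0 γ), om m ^ u.card‖ ≤ r γ := by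
      refine (norm_sum_le _ _).trans ?_
      simp only [norm_pow, norm_om, one_pow, Finset.sum_const, nsmul_eq_mul, mul_one]
      have h4 : ((fib γ).filter (fun u => ¬ u.card = w0 γ)).card = r γ := by
        have h5 := Finset.card_filter_add_card_filter_not (s := fib γ) (fun u => u.card = w0 γ)
        have h6 : ((fib γ).filter fun u => u.card = w0 γ).card = (A γ (w0 γ)).card := rfl
        have h7 := hfr γ
        omega
      rw [h4]
    rw [h1]
    set Y : ℂ := ∑ u ∈ (fib γ).filter (fun u => ¬ u.card = w0 γ), om m ^ u.card with hY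
    set X : ℂ := ∑ u ∈ A γ (w0 γ), om m ^ u.card with hX
    have h8 := norm_sub_norm_le X (-Y)
    rw [norm_neg, sub_neg_eq_add] at h8
    linarith
  have htot : ∑ γ, ((fib γ).card) = 2 ^ b := by
    rw [← Finset.card_powerset]
    exact (Finset.card_eq_sum_card_fiberwise fun u _ => mem_univ _).symm
  have hsq : (∑ γ, ‖(gen m g s) γ‖) ^ 2 ≤ ((2 : ℝ) ^ b / 4) ^ 2 := by
    have h1 := sq_sum_le_card_mul_sum_sq (s := (univ : Finset G))
      (f := fun γ => ‖(gen m g s) γ‖)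
    have h2 := norm_gen_sq m hm g hg s
    rw [EuclideanSpace.norm_sq_eq] at h2
    have h3 := geom_bound m L hm
    have h4 : (4 * (1 - 1 / (m : ℝ) ^ 2)) ^ s.card ≤ 4 ^ b * (1 / 2) ^ L := by
      rw [mul_pow, show s.card = b from rfl, hs]
      have h40 : (0 : ℝ) ≤ 4 ^ (m ^ 2 * L) := by positivity
      exact mul_le_mul_of_nonneg_left h3 h40
    have h5 : (Fintype.card G : ℝ) ≤ 2 ^ L / 16 := by
      rw [le_div_iff₀ (by norm_num)]
      exact_mod_cast hL
    calc (∑ γ, ‖(gen m g s) γ‖) ^ 2 ≤ (Fintype.card G) * ∑ γ, ‖(gen m g s) γ‖ ^ 2 := by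
          simpa using h1
      _ ≤ (2 ^ L / 16) * (4 ^ b * (1 / 2) ^ L) :=
          mul_le_mul h5 (h2.trans h4) (Finset.sum_nonneg fun _ _ => by positivity)
            (by positivity)
      _ = ((2 : ℝ) ^ b / 4) ^ 2 := by
          have e1 : (4 : ℝ) ^ b = (2 ^ b) ^ 2 := by
            rw [← pow_mul, mul_comm, pow_mul]; norm_num
          have e2 : (2 : ℝ) ^ L * (1 / 2) ^ L = 1 := by
            rw [← mul_pow]; norm_num
          rw [e1]
          linear_combination ((2 : ℝ) ^ b) ^ 2 / 16 * e2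
  have hsum4 : ∑ γ, ‖(gen m g s) γ‖ ≤ (2 : ℝ) ^ b / 4 := by
    refine le_of_sq_le_sq hsq (by positivity)
  have hr : 3 * 2 ^ b ≤ 8 * ∑ γ, r γ := by
    have h1 : ∑ γ, (((A γ (w0 γ)).card : ℝ) - r γ) ≤ (2 : ℝ) ^ b / 4 :=
      (Finset.sum_le_sum fun γ _ => hnorm γ).trans hsum4
    have h2 : ∑ γ, (((A γ (w0 γ)).card : ℝ) + r γ) = (2 : ℝ) ^ b := by
      have : ((∑ γ, (fib γ).card : ℕ) : ℝ) = ((2 ^ b : ℕ) : ℝ) := by rw [htot]
      push_cast at this
      rw [← this]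
      refine Finset.sum_congr rfl fun γ _ => ?_
      rw [hfr γ]; push_cast; ring
    have h3 : (3 : ℝ) * 2 ^ b ≤ 8 * ∑ γ, (r γ : ℝ) := by
      have h4 : ∑ γ, (((A γ (w0 γ)).card : ℝ) + r γ) - ∑ γ, (((A γ (w0 γ)).card : ℝ) - r γ) =
          2 * ∑ γ, (r γ : ℝ) := by
        rw [← Finset.sum_sub_distrib, Finset.mul_sum]
        exact Finset.sum_congr rfl fun γ _ => by ring
      linarith
    exact_mod_cast h3
  -- pigeonhole over pairs of sizes
  have hrle : ∀ γ, r γ ≤ ∑ q ∈ (range (b + 1)).offDiag, min (A γ q.1).card (A γ q.2).card := by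
    intro γ
    have h1 : r γ = ∑ w ∈ (range (b + 1)).erase (w0 γ),
        min (A γ w).card (A γ (w0 γ)).card := by
      refine Finset.sum_congr rfl fun w hw => ?_
      rw [min_eq_left (hw0max γ w (mem_of_mem_erase hw))]
    rw [h1]
    have h2 : ∑ w ∈ (range (b + 1)).erase (w0 γ), min (A γ w).card (A γ (w0 γ)).card =
        ∑ q ∈ ((range (b + 1)).erase (w0 γ)).image (fun w => (w, w0 γ)),
          min (A γ q.1).card (A γ q.2).card := by
      rw [Finset.sum_image]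
      intro x _ y _ h
      exact (Prod.mk.inj h).1
    rw [h2]
    refine Finset.sum_le_sum_of_subset ?_
    intro q hq
    obtain ⟨w, hw, rfl⟩ := mem_image.mp hq
    rw [mem_offDiag]
    exact ⟨mem_of_mem_erase hw, hw0 γ, ne_of_mem_erase hw⟩
  obtain ⟨q, hq, hqs⟩ : ∃ q ∈ (range (b + 1)).offDiag,
      2 ^ b ≤ 3 * (b + 1) ^ 2 * ∑ γ, min (A γ q.1).card (A γ q.2).card := by
    by_contra hcon
    push Not at hcon
    have h1 : 8 * ∑ γ, r γ ≤ 8 * ∑ q ∈ (range (b + 1)).offDiag,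
        ∑ γ, min (A γ q.1).card (A γ q.2).card := by
      rw [Finset.sum_comm]
      exact Nat.mul_le_mul_left _ (Finset.sum_le_sum fun γ _ => hrle γ)
    have hne : (range (b + 1)).offDiag.Nonempty := by
      rw [Finset.nonempty_iff_ne_empty]
      intro h0
      rw [h0, Finset.sum_empty] at h1
      have : 0 < 2 ^ b := by positivity
      omega
    have h2 : 3 * (b + 1) ^ 2 * ∑ q ∈ (range (b + 1)).offDiag,
        ∑ γ, min (A γ q.1).card (A γ q.2).card < (range (b + 1)).offDiag.card * 2 ^ b := by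
      rw [Finset.mul_sum, ← smul_eq_mul (Finset.card _), ← Finset.sum_const]
      exact Finset.sum_lt_sum_of_nonempty hne hcon
    have h3 : (range (b + 1)).offDiag.card ≤ (b + 1) ^ 2 := by
      rw [Finset.offDiag_card, card_range, sq]
      omega
    have h4 : 3 * (b + 1) ^ 2 * (3 * 2 ^ b) < 8 * ((b + 1) ^ 2 * 2 ^ b) := by
      calc 3 * (b + 1) ^ 2 * (3 * 2 ^ b) ≤ 3 * (b + 1) ^ 2 * (8 * ∑ γ, r γ) :=
            Nat.mul_le_mul_left _ hr
        _ ≤ 3 * (b + 1) ^ 2 * (8 * ∑ q ∈ (range (b + 1)).offDiag,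
              ∑ γ, min (A γ q.1).card (A γ q.2).card) := Nat.mul_le_mul_left _ h1
        _ = 8 * (3 * (b + 1) ^ 2 * ∑ q ∈ (range (b + 1)).offDiag,
              ∑ γ, min (A γ q.1).card (A γ q.2).card) := by ring
        _ < 8 * ((range (b + 1)).offDiag.card * 2 ^ b) := by omega
        _ ≤ 8 * ((b + 1) ^ 2 * 2 ^ b) :=
            Nat.mul_le_mul_left _ (Nat.mul_le_mul_right _ h3)
    have h5 : 0 < (b + 1) ^ 2 * 2 ^ b := by positivity
    nlinarith
  rw [mem_offDiag] at hq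
  -- order the two sizes
  obtain ⟨w, w', hlt, hw', hww⟩ : ∃ w w' : ℕ, w < w' ∧ w' ≤ b ∧
      2 ^ b ≤ 3 * (b + 1) ^ 2 * ∑ γ, min (A γ w).card (A γ w').card := by
    rcases lt_or_gt_of_ne hq.2.2 with h | h
    · exact ⟨q.1, q.2, h, Nat.lt_succ_iff.mp (mem_range.mp hq.2.1), hqs⟩
    · refine ⟨q.2, q.1, h, Nat.lt_succ_iff.mp (mem_range.mp hq.1), ?_⟩
      simp only [min_comm (A _ q.2).card]
      exact hqs
  choose Mt h1 h2 h3 h4 using fun γ => exists_matching (A γ w) (A γ w')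
  have hmem : ∀ γ, ∀ q ∈ Mt γ, (q.1 ⊆ s ∧ q.2 ⊆ s ∧ q.1.card = w ∧ q.2.card = w' ∧
      ∑ i ∈ q.1, g i = ∑ i ∈ q.2, g i) ∧ ∑ i ∈ q.1, g i = γ := by
    intro γ q hq
    have ha := mem_filter.mp (h1 γ q hq).1
    have hb := mem_filter.mp (h1 γ q hq).2
    have ha' := mem_filter.mp ha.1
    have hb' := mem_filter.mp hb.1
    exact ⟨⟨mem_powerset.mp ha'.1, mem_powerset.mp hb'.1, ha.2, hb.2, by rw [ha'.2, hb'.2]⟩, ha'.2⟩
  refine ⟨w, w', univ.biUnion Mt, hlt, hw', ?_, ?_, ?_, ?_⟩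
  · intro q hq
    obtain ⟨γ, _, hq⟩ := mem_biUnion.mp hq
    exact (hmem γ q hq).1
  · intro q hq t ht h
    obtain ⟨γ, _, hq⟩ := mem_biUnion.mp hq
    obtain ⟨γ', _, ht⟩ := mem_biUnion.mp ht
    have e : γ = γ' := by rw [← (hmem γ q hq).2, ← (hmem γ' t ht).2, h]
    subst e
    exact h2 γ q hq t ht h
  · intro q hq t ht h
    obtain ⟨γ, _, hq⟩ := mem_biUnion.mp hq
    obtain ⟨γ', _, ht⟩ := mem_biUnion.mp ht
    have e : γ = γ' := by
      rw [← (hmem γ q hq).2, ← (hmem γ' t ht).2, (hmem γ q hq).1.2.2.2.2,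
        (hmem γ' t ht).1.2.2.2.2, h]
    subst e
    exact h3 γ q hq t ht h
  · rw [Finset.card_biUnion]
    · simpa only [h4] using hww
    · intro γ _ γ' _ hne
      change Disjoint (Mt γ) (Mt γ')
      rw [Finset.disjoint_left]
      intro q hq hq'
      exact hne (by rw [← (hmem γ q hq).2, ← (hmem γ' q hq').2])

end Pool.Agent.RS
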