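import Pool.Agent.RS.Blocks
import Pool.Agent.RS.Match

/-!
# Existence of block systems
-/

set_option autoImplicit false
set_option linter.unusedSectionVars false

namespace Pool.Agent.RS

open Finset

variable {ι β G : Type} [Fintype ι] [DecidableEq ι] [Fintype β] [DecidableEq β]
  [AddCommGroup G] [Fintype G] [DecidableEq G]

theorem exists_sys (m L : ℕ) (hm : 0 < m) (g : ι → G) (hg : ∀ i, m • g i = 0)
    (hL : Fintype.card G * 16 ≤ 2 ^ L)
    (hK : (m ^ 2 * L + 1) ^ 2 * Fintype.card β * (m ^ 2 * L) ≤ Fintype.card ι) :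
    ∃ W : Sys ι β G g, (∀ B, (W.blk B).card = m ^ 2 * L) ∧
      (∀ B, 2 ^ (m ^ 2 * L) ≤ 3 * (m ^ 2 * L + 1) ^ 2 * (W.light B).card) ∧
      (∀ B, 2 ^ (m ^ 2 * L) ≤ 3 * (m ^ 2 * L + 1) ^ 2 * (W.heavy B).card) := by
  classical
  set b := m ^ 2 * L with hb
  set N := (b + 1) ^ 2 * Fintype.card β with hN
  -- disjoint blocks
  obtain ⟨e⟩ : Nonempty (Fin N × Fin b ↪ ι) := by
    refine Function.Embedding.nonempty_of_card_le ?_
    rw [Fintype.card_prod, Fintype.card_fin, Fintype.card_fin]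
    exact hK
  let bl : Fin N → Finset ι := fun j => univ.image fun t => e (j, t)
  have hbl : ∀ j, (bl j).card = b := by
    intro j
    rw [card_image_of_injective, card_univ, Fintype.card_fin]
    intro t t' h
    have := e.injective h
    exact (Prod.mk.inj this).2
  have hbd : ∀ j j', j ≠ j' → Disjoint (bl j) (bl j') := by
    intro j j' hne
    rw [Finset.disjoint_left]
    intro i hi hi'
    obtain ⟨t, _, rfl⟩ := mem_image.1 hi
    obtain ⟨t', _, h⟩ := mem_image.1 hi'
    exact hne (Prod.mk.inj (e.injective h)).1.symm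
  have hpairs := fun j => exists_pairs m L hm g hg (bl j) (by rw [hbl j]) hL
  choose w w' Mt hw hw' hM hM1 hM2 hMc using hpairs
  -- a popular pair of sizes
  have hmaps : ∀ j ∈ (univ : Finset (Fin N)), (w j, w' j) ∈ (range (b + 1)) ×ˢ (range (b + 1)) := by
    intro j _
    have h1 := hw j
    have h2 := hw' j
    rw [hbl j] at h2
    rw [mem_product, mem_range, mem_range]
    exact ⟨by omega, by omega⟩
  have hne : ((range (b + 1)) ×ˢ (range (b + 1))).Nonempty := ⟨(0, 0), by simp⟩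
  obtain ⟨⟨w₀, w₀'⟩, _, hpop⟩ := Finset.exists_le_card_fiber_of_mul_le_card_of_maps_to
    (n := Fintype.card β) hmaps hne (by
      rw [card_product, card_range, card_univ, Fintype.card_fin, hN, sq])
  obtain ⟨f⟩ : Nonempty (β ↪ {j : Fin N // j ∈ (univ : Finset (Fin N)).filter
      fun j => (w j, w' j) = (w₀, w₀')}) := by
    refine Function.Embedding.nonempty_of_card_le ?_
    rw [Fintype.card_coe]
    exact hpop
  have hf : ∀ B, w (f B).1 = w₀ ∧ w' (f B).1 = w₀' := by
    intro B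
    have := (mem_filter.1 (f B).2).2
    exact Prod.mk.inj this
  rcases isEmpty_or_nonempty β with hβ | ⟨⟨B₀⟩⟩
  · refine ⟨⟨fun _ => ∅, fun B => (IsEmpty.false B).elim, 0, 1, Nat.zero_lt_one, fun _ => ∅,
      fun _ => ∅, fun _ => id, fun _ => id, fun B => (IsEmpty.false B).elim,
      fun B => (IsEmpty.false B).elim, fun B => (IsEmpty.false B).elim,
      fun B => (IsEmpty.false B).elim, fun B => (IsEmpty.false B).elim,
      fun B => (IsEmpty.false B).elim, fun B => (IsEmpty.false B).elim,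
      fun B => (IsEmpty.false B).elim, fun B => (IsEmpty.false B).elim⟩,
      fun B => (IsEmpty.false B).elim, fun B => (IsEmpty.false B).elim,
      fun B => (IsEmpty.false B).elim⟩
  have hup : ∀ B : β, ∀ u : Finset ι, ∃ v : Finset ι,
      (∃ q ∈ Mt (f B).1, q.1 = u) → (u, v) ∈ Mt (f B).1 := by
    intro B u
    by_cases h : ∃ q ∈ Mt (f B).1, q.1 = u
    · obtain ⟨q, hq, hqu⟩ := h
      exact ⟨q.2, fun _ => by rw [← hqu]; exact hq⟩
    · exact ⟨∅, fun h' => absurd h' h⟩
  have hdn : ∀ B : β, ∀ v : Finset ι, ∃ u : Finset ι,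
      (∃ q ∈ Mt (f B).1, q.2 = v) → (u, v) ∈ Mt (f B).1 := by
    intro B v
    by_cases h : ∃ q ∈ Mt (f B).1, q.2 = v
    · obtain ⟨q, hq, hqu⟩ := h
      exact ⟨q.1, fun _ => by rw [← hqu]; exact hq⟩
    · exact ⟨∅, fun h' => absurd h' h⟩
  choose up hup using hup
  choose dn hdn using hdn
  have hup' : ∀ B, ∀ q ∈ Mt (f B).1, up B q.1 = q.2 := by
    intro B q hq
    have h1 := hup B q.1 ⟨q, hq, rfl⟩
    have h2 := hM1 (f B).1 _ h1 q hq rfl
    exact (Prod.mk.inj (by rw [Prod.mk.eta]; exact h2 : (q.1, up B q.1) = (q.1, q.2))).2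
  have hdn' : ∀ B, ∀ q ∈ Mt (f B).1, dn B q.2 = q.1 := by
    intro B q hq
    have h1 := hdn B q.2 ⟨q, hq, rfl⟩
    have h2 := hM2 (f B).1 _ h1 q hq rfl
    exact (Prod.mk.inj (by rw [Prod.mk.eta]; exact h2 : (dn B q.2, q.2) = (q.1, q.2))).1
  refine ⟨{
      blk := fun B => bl (f B).1
      disj := fun B B' hne => hbd _ _ fun h => hne (f.injective (Subtype.ext h))
      w := w₀
      w' := w₀'
      hw := by
        have := hw (f B₀).1
        rwa [(hf B₀).1, (hf B₀).2] at this
      light := fun B => (Mt (f B).1).image Prod.fst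
      heavy := fun B => (Mt (f B).1).image Prod.snd
      up := up
      dn := dn
      light_sub := ?_
      heavy_sub := ?_
      light_card := ?_
      heavy_card := ?_
      up_mem := ?_
      dn_mem := ?_
      up_dn := ?_
      dn_up := ?_
      up_sum := ?_ }, ?_, ?_, ?_⟩
  · intro B u hu
    obtain ⟨q, hq, rfl⟩ := mem_image.1 hu
    exact (hM _ q hq).1
  · intro B u hu
    obtain ⟨q, hq, rfl⟩ := mem_image.1 hu
    exact (hM _ q hq).2.1
  · intro B u hu
    obtain ⟨q, hq, rfl⟩ := mem_image.1 hu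
    rw [← (hf B).1]
    exact (hM _ q hq).2.2.1
  · intro B u hu
    obtain ⟨q, hq, rfl⟩ := mem_image.1 hu
    rw [← (hf B).2]
    exact (hM _ q hq).2.2.2.1
  · intro B u hu
    obtain ⟨q, hq, rfl⟩ := mem_image.1 hu
    rw [hup' B q hq]
    exact mem_image_of_mem _ hq
  · intro B u hu
    obtain ⟨q, hq, rfl⟩ := mem_image.1 hu
    rw [hdn' B q hq]
    exact mem_image_of_mem _ hq
  · intro B u hu
    obtain ⟨q, hq, rfl⟩ := mem_image.1 hu
    rw [hdn' B q hq, hup' B q hq]
  · intro B u hu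
    obtain ⟨q, hq, rfl⟩ := mem_image.1 hu
    rw [hup' B q hq, hdn' B q hq]
  · intro B u hu
    obtain ⟨q, hq, rfl⟩ := mem_image.1 hu
    rw [hup' B q hq]
    exact (hM _ q hq).2.2.2.2.symm
  · intro B
    exact hbl _
  · intro B
    change 2 ^ b ≤ 3 * (b + 1) ^ 2 * ((Mt (f B).1).image Prod.fst).card
    rw [card_image_of_injOn fun q hq r hr h => hM1 _ q hq r hr h]
    have := hMc (f B).1
    rwa [hbl] at this
  · intro B
    change 2 ^ b ≤ 3 * (b + 1) ^ 2 * ((Mt (f B).1).image Prod.snd).card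
    rw [card_image_of_injOn fun q hq r hr h => hM2 _ q hq r hr h]
    have := hMc (f B).1
    rwa [hbl] at this

end Pool.Agent.RS
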